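import Mathlib

/-!
The Hardy inequality for the distance to the boundary of an open set with the exterior ball
condition, with the sharp constant up to a term of lower order.
-/

set_option autoImplicit false

open MeasureTheory Set Filter Topology Metric
open scoped ENNReal NNReal InnerProductSpace

namespace R923.BH

abbrev E3 := EuclideanSpace ℝ (Fin 3)

/-- The exterior ball condition with the radius `ρ`. -/
def ExtBall (ρ : ℝ) (Ω : Set E3) : Prop :=
  ∀ y ∈ frontier Ω, ∃ z : E3, ‖z - y‖ = ρ ∧ ball z ρ ⊆ Ωᶜ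

/-- distance to the complement -/
noncomputable def dc (Ω : Set E3) (x : E3) : ℝ := infDist x Ωᶜ

/-- basis vector -/
noncomputable def bv (i : Fin 3) : E3 := EuclideanSpace.single i 1

theorem norm_bv (i : Fin 3) : ‖bv i‖ = 1 := by simp [bv]

theorem norm_add_norm_le {w v : E3} {ρ t : ℝ} (hρ : 0 < ρ) (hw : ρ ≤ ‖w‖) (hv : ‖v‖ = 1) :
    ‖w + t • v‖ + ‖w - t • v‖ - 2 * ‖w‖ ≤ t ^ 2 / ρ := by
  have hw0 : 0 < ‖w‖ := hρ.trans_le hw
  have h1 : ‖w + t • v‖ ^ 2 + ‖w - t • v‖ ^ 2 = 2 * (‖w‖ ^ 2 + t ^ 2) := by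
    have := parallelogram_law_with_norm ℝ w (t • v)
    rw [norm_smul, hv, mul_one, Real.norm_eq_abs] at this
    nlinarith [this, abs_mul_abs_self t]
  have h2 : ‖w + t • v‖ + ‖w - t • v‖ ≤ 2 * ‖w‖ + t ^ 2 / ‖w‖ := by
    have h4 : (2 * ‖w‖ + t ^ 2 / ‖w‖) ^ 2 = 4 * ‖w‖ ^ 2 + 4 * t ^ 2 + (t ^ 2 / ‖w‖) ^ 2 := by
      field_simp; ring
    refine le_of_sq_le_sq ?_ (by positivity)
    rw [h4]
    nlinarith [sq_nonneg (‖w + t • v‖ - ‖w - t • v‖), sq_nonneg (t ^ 2 / ‖w‖)]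
  have h5 : t ^ 2 / ‖w‖ ≤ t ^ 2 / ρ := by gcongr
  linarith

theorem dc_le {Ω : Set E3} (hΩ : IsOpen Ω) {ρ : ℝ} (hρ : 0 < ρ) {z p : E3}
    (hz : ball z ρ ⊆ Ωᶜ) (hp : p ∈ Ω) : ρ ≤ ‖p - z‖ ∧ dc Ω p ≤ ‖p - z‖ - ρ := by
  have h1 : ρ ≤ ‖p - z‖ := by
    by_contra hc
    push Not at hc
    exact hz (mem_ball_iff_norm.2 hc) hp
  refine ⟨h1, ?_⟩
  have hr : 0 < ‖p - z‖ := hρ.trans_le h1
  have h2 : closedBall z ρ ⊆ Ωᶜ := by
    rw [← closure_ball z hρ.ne']
    exact closure_minimal hz hΩ.isClosed_compl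
  have h3 : z + (ρ / ‖p - z‖) • (p - z) ∈ Ωᶜ := by
    refine h2 (mem_closedBall_iff_norm.2 ?_)
    rw [add_sub_cancel_left, norm_smul, Real.norm_of_nonneg (by positivity),
      div_mul_cancel₀ _ hr.ne']
  refine (infDist_le_dist_of_mem h3).trans (le_of_eq ?_)
  rw [dist_eq_norm]
  have e1 : p - (z + (ρ / ‖p - z‖) • (p - z)) = (1 - ρ / ‖p - z‖) • (p - z) := by
    rw [sub_smul, one_smul]; abel
  rw [e1, norm_smul, Real.norm_of_nonneg (by
    rw [sub_nonneg, div_le_one hr]; exact h1), sub_mul, one_mul, div_mul_cancel₀ _ hr.ne']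

theorem second_diff {Ω : Set E3} (hΩ : IsOpen Ω) (hne : Ω ≠ univ) {ρ : ℝ} (hρ : 0 < ρ)
    (hext : ExtBall ρ Ω) {x v : E3} (hx : x ∈ Ω) (hv : ‖v‖ = 1) {t : ℝ} (h1 : x + t • v ∈ Ω)
    (h2 : x - t • v ∈ Ω) : dc Ω (x + t • v) + dc Ω (x - t • v) - 2 * dc Ω x ≤ t ^ 2 / ρ := by
  obtain ⟨y, hy, hxy⟩ := exists_mem_frontier_infDist_compl_eq_dist hx hne
  obtain ⟨z, hz, hzb⟩ := hext y hy
  obtain ⟨a1, -⟩ := dc_le hΩ hρ hzb hx
  obtain ⟨-, b1⟩ := dc_le hΩ hρ hzb h1
  obtain ⟨-, c1⟩ := dc_le hΩ hρ hzb h2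
  have h3 : ‖x - z‖ - ρ ≤ dc Ω x := by
    show _ ≤ infDist x Ωᶜ
    rw [hxy, dist_eq_norm, ← hz]
    have : ‖x - z‖ ≤ ‖x - y‖ + ‖z - y‖ := by
      have e1 : x - z = (x - y) - (z - y) := by abel
      rw [e1]
      exact norm_sub_le _ _
    linarith
  have h4 := norm_add_norm_le (w := x - z) (v := v) (t := t) hρ a1 hv
  have e1 : x + t • v - z = x - z + t • v := by abel
  have e2 : x - t • v - z = x - z - t • v := by abel
  rw [e1] at b1
  rw [e2] at c1
  linarith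

theorem lip_dc (Ω : Set E3) : LipschitzWith 1 (dc Ω) := lipschitz_infDist_pt _

theorem sum_bv (w : E3) : w = ∑ i, w i • bv i := by
  refine PiLp.ext fun j => ?_
  simp [bv, Pi.single_apply, Fin.sum_univ_three]
  fin_cases j <;> simp

theorem grad_ge {Ω : Set E3} (hne : Ω ≠ univ) {x : E3} (hx : x ∈ Ω) (hp : 0 < dc Ω x)
    (hd : DifferentiableAt ℝ (dc Ω) x) : 1 ≤ ∑ i, (fderiv ℝ (dc Ω) x (bv i)) ^ 2 := by
  obtain ⟨y, hy, hxy⟩ := exists_mem_frontier_infDist_compl_eq_dist hx hne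
  have hyc : y ∈ closure Ωᶜ := by
    rw [frontier_eq_closure_inter_closure] at hy
    exact hy.2
  set w := y - x with hw
  have hwn : ‖w‖ = dc Ω x := by
    show ‖y - x‖ = infDist x Ωᶜ
    rw [hxy, dist_eq_norm, norm_sub_rev]
  have h1 : HasDerivAt (fun s : ℝ => dc Ω (x + s • w)) (fderiv ℝ (dc Ω) x w) 0 :=
    (hd.hasFDerivAt.hasLineDerivAt w)
  have h2 : fderiv ℝ (dc Ω) x w ≤ -‖w‖ := by
    have h3 := h1.tendsto_slope_zero_right
    refine le_of_tendsto h3 ?_
    have h4 : Ioo (0 : ℝ) 1 ∈ 𝓝[>] (0 : ℝ) := Ioo_mem_nhdsGT one_pos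
    filter_upwards [h4] with s hs
    simp only [zero_add, zero_smul, add_zero, smul_eq_mul]
    have h5 : dc Ω (x + s • w) ≤ (1 - s) * ‖w‖ := by
      have h6 : dc Ω (x + s • w) ≤ dist (x + s • w) y := by
        show infDist _ _ ≤ _
        rw [← infDist_closure]
        exact infDist_le_dist_of_mem hyc
      refine h6.trans (le_of_eq ?_)
      rw [dist_eq_norm]
      have e1 : x + s • w - y = -((1 - s) • w) := by
        rw [sub_smul, one_smul, hw]; abel
      rw [e1, norm_neg, norm_smul, Real.norm_of_nonneg (by linarith [hs.2])]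
    rw [← hwn]
    have h7 : dc Ω (x + s • w) - ‖w‖ ≤ -(s * ‖w‖) := by linarith
    calc s⁻¹ * (dc Ω (x + s • w) - ‖w‖) ≤ s⁻¹ * -(s * ‖w‖) :=
          mul_le_mul_of_nonneg_left h7 (inv_nonneg.2 hs.1.le)
      _ = -‖w‖ := by field_simp [hs.1.ne']
  have h3 : fderiv ℝ (dc Ω) x w = ∑ i, w i * fderiv ℝ (dc Ω) x (bv i) := by
    conv_lhs => rw [sum_bv w]
    rw [map_sum]
    simp [smul_eq_mul]
  have h4 : (∑ i, w i * fderiv ℝ (dc Ω) x (bv i)) ^ 2
      ≤ (∑ i, w i ^ 2) * ∑ i, (fderiv ℝ (dc Ω) x (bv i)) ^ 2 :=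
    Finset.sum_mul_sq_le_sq_mul_sq _ _ _
  rw [← h3] at h4
  have h5 : ∑ i, w i ^ 2 = ‖w‖ ^ 2 := by
    rw [EuclideanSpace.norm_eq, Real.sq_sqrt (Finset.sum_nonneg fun i _ => by positivity)]
    simp
  rw [h5] at h4
  have h6 : 0 < ‖w‖ := hwn ▸ hp
  have h7 : ‖w‖ ^ 2 ≤ (fderiv ℝ (dc Ω) x w) ^ 2 := by nlinarith
  have h8 : ‖w‖ ^ 2 * 1 ≤ ‖w‖ ^ 2 * ∑ i, (fderiv ℝ (dc Ω) x (bv i)) ^ 2 := by linarith
  exact le_of_mul_le_mul_left h8 (by positivity)

theorem grad_cs {f : E3 → ℝ} (hf : LipschitzWith 1 f) (x : E3) (g : Fin 3 → ℝ) :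
    (∑ i, g i * fderiv ℝ f x (bv i)) ^ 2 ≤ ∑ i, g i ^ 2 := by
  set w : E3 := WithLp.toLp 2 g with hw
  have h3 : fderiv ℝ f x w = ∑ i, g i * fderiv ℝ f x (bv i) := by
    conv_lhs => rw [sum_bv w]
    rw [map_sum]
    simp [smul_eq_mul, hw]
  rw [← h3]
  have h4 : ‖fderiv ℝ f x w‖ ≤ 1 * ‖w‖ :=
    ((fderiv ℝ f x).le_opNorm w).trans (mul_le_mul_of_nonneg_right
      (by simpa using norm_fderiv_le_of_lipschitz ℝ hf) (norm_nonneg _))
  have h5 : ∑ i, g i ^ 2 = ‖w‖ ^ 2 := by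
    rw [EuclideanSpace.norm_eq, Real.sq_sqrt (Finset.sum_nonneg fun i _ => by positivity)]
    simp [hw]
  rw [h5, ← sq_abs (fderiv ℝ f x w)]
  rw [one_mul, Real.norm_eq_abs] at h4
  gcongr

/-- one-sided integration by parts for Lipschitz functions -/
theorem int_ge {f η : E3 → ℝ} {v : E3} {Cf Cη : ℝ≥0} (hf : LipschitzWith Cf f)
    (hη : LipschitzWith Cη η) (hc : HasCompactSupport η) {K δ : ℝ} (hδ : 0 < δ)
    (h0 : ∀ x, 0 ≤ η x)
    (hK : ∀ x, η x ≠ 0 → ∀ t ∈ Ioo 0 δ, f (x + t • v) + f (x - t • v) - 2 * f x ≤ t ^ 2 * K) :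
    -K * ∫ x, η x ≤ ∫ x, lineDeriv ℝ f x v * lineDeriv ℝ η x v := by
  have hfc := hf.continuous
  have hηc := hη.continuous
  -- the identity
  have hid : ∀ t : ℝ, 0 < t → ∫ x, (t⁻¹ • (f (x + t • v) - f x)) * (t⁻¹ • (η (x + t • v) - η x))
      = -∫ x, (t ^ 2)⁻¹ * (f (x + t • v) + f (x - t • v) - 2 * f x) * η x := by
    intro t ht
    have hct : HasCompactSupport fun x => η (x + t • v) :=
      hc.comp_homeomorph (Homeomorph.addRight (t • v))
    set g : E3 → ℝ := fun x => (t ^ 2)⁻¹ * (f (x + t • v) - f x) with hg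
    have hgc : Continuous g := by fun_prop
    have i1 : Integrable fun x => g x * η (x + t • v) :=
      (hgc.mul (by fun_prop)).integrable_of_hasCompactSupport hct.mul_left
    have i2 : Integrable fun x => g x * η x :=
      (hgc.mul hηc).integrable_of_hasCompactSupport hc.mul_left
    have i3 : Integrable fun x => g (x - t • v) * η x :=
      ((by fun_prop : Continuous fun x => g (x - t • v)).mul
        hηc).integrable_of_hasCompactSupport hc.mul_left
    have e1 : ∫ x, g x * η (x + t • v) = ∫ x, g (x - t • v) * η x := by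
      rw [← integral_add_right_eq_self (fun x => g (x - t • v) * η x) (t • v)]
      simp only [add_sub_cancel_right]
    have e2 : ∀ x, (t⁻¹ • (f (x + t • v) - f x)) * (t⁻¹ • (η (x + t • v) - η x))
        = g x * η (x + t • v) - g x * η x := fun x => by
      simp only [hg, smul_eq_mul]
      field_simp
    simp_rw [e2]
    rw [integral_sub i1 i2, e1, ← integral_sub i3 i2, ← integral_neg]
    refine integral_congr_ae (Eventually.of_forall fun x => ?_)
    simp only [hg, sub_add_cancel]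
    ring
  -- the limit
  have hcomp : IsCompact (cthickening ‖v‖ (tsupport η)) := IsCompact.cthickening hc
  have hlim : Tendsto (fun t : ℝ => ∫ x, (t⁻¹ • (f (x + t • v) - f x)) *
      (t⁻¹ • (η (x + t • v) - η x))) (𝓝[>] 0)
      (𝓝 (∫ x, lineDeriv ℝ f x v * lineDeriv ℝ η x v)) := by
    refine tendsto_integral_filter_of_dominated_convergence
      (indicator (cthickening ‖v‖ (tsupport η)) fun _ => (Cf * ‖v‖) * (Cη * ‖v‖)) ?_ ?_ ?_ ?_
    · refine Eventually.of_forall fun t => Continuous.aestronglyMeasurable ?_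
      fun_prop
    · have h4 : Ioo (0 : ℝ) 1 ∈ 𝓝[>] (0 : ℝ) := Ioo_mem_nhdsGT one_pos
      filter_upwards [h4] with t ht
      refine Eventually.of_forall fun x => ?_
      by_cases hx : x ∈ cthickening ‖v‖ (tsupport η)
      · rw [indicator_of_mem hx, norm_mul]
        have key : ∀ (k : E3 → ℝ) (Ck : ℝ≥0), LipschitzWith Ck k →
            ‖t⁻¹ • (k (x + t • v) - k x)‖ ≤ Ck * ‖v‖ := by
          intro k Ck hk
          rw [norm_smul, norm_inv, Real.norm_of_nonneg ht.1.le]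
          have h5 := hk.dist_le_mul (x + t • v) x
          rw [dist_eq_norm, dist_eq_norm, add_sub_cancel_left, norm_smul,
            Real.norm_of_nonneg ht.1.le] at h5
          rw [inv_mul_le_iff₀ ht.1]
          linarith
        exact mul_le_mul (key f Cf hf) (key η Cη hη) (norm_nonneg _) (by positivity)
      · rw [indicator_of_notMem hx]
        have h5 : η x = 0 := by
          by_contra hne
          exact hx (self_subset_cthickening _ (subset_tsupport _ hne))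
        have h6 : η (x + t • v) = 0 := by
          by_contra hne
          refine hx ?_
          refine mem_cthickening_of_dist_le x (x + t • v) _ _ (subset_tsupport _ hne) ?_
          rw [dist_eq_norm]
          have e1 : x - (x + t • v) = -(t • v) := by abel
          rw [e1, norm_neg, norm_smul, Real.norm_of_nonneg ht.1.le]
          nlinarith [norm_nonneg v, ht.2]
        rw [h5, h6]
        simp
    · rw [integrable_indicator_iff hcomp.measurableSet]
      exact integrableOn_const hcomp.measure_lt_top.ne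
    · filter_upwards [hf.ae_lineDifferentiableAt (v := v), hη.ae_lineDifferentiableAt (v := v)]
        with x h1 h2
      exact (h1.hasLineDerivAt.tendsto_slope_zero_right).mul
        (h2.hasLineDerivAt.tendsto_slope_zero_right)
  refine ge_of_tendsto hlim ?_
  have h4 : Ioo (0 : ℝ) δ ∈ 𝓝[>] (0 : ℝ) := Ioo_mem_nhdsGT hδ
  filter_upwards [h4] with t ht
  rw [hid t ht.1, neg_mul, ← integral_const_mul, neg_le_neg_iff]
  refine integral_mono (Continuous.integrable_of_hasCompactSupport (by fun_prop) hc.mul_left)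
    ((hηc.integrable_of_hasCompactSupport hc).const_mul _) fun x => ?_
  by_cases hx : η x = 0
  · simp [hx]
  · refine mul_le_mul_of_nonneg_right ?_ (h0 x)
    rw [inv_mul_le_iff₀ (by have := ht.1; positivity)]
    exact hK x hx t ht

end R923.BH
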