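import Pool.Agent.R923.BH.H1

/-!
The Hardy inequality for the distance to the boundary of an open set with the exterior ball
condition: main inequality for scalar functions.
-/

set_option autoImplicit false

open MeasureTheory Set Filter Topology Metric
open scoped ENNReal NNReal InnerProductSpace

namespace R923.BH

/-- square of the gradient -/
noncomputable def gs (φ : E3 → ℝ) (x : E3) : ℝ := ∑ i, (fderiv ℝ φ x (bv i)) ^ 2

theorem lip_mul {f g : E3 → ℝ} {Cf Cg : ℝ≥0} {M N : ℝ} (hf : LipschitzWith Cf f)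
    (hg : LipschitzWith Cg g) (hM : ∀ x, |f x| ≤ M) (hN : ∀ x, |g x| ≤ N) :
    ∃ C : ℝ≥0, LipschitzWith C fun x => f x * g x := by
  have hM0 : 0 ≤ M := (abs_nonneg _).trans (hM 0)
  have hN0 : 0 ≤ N := (abs_nonneg _).trans (hN 0)
  refine ⟨⟨M * Cg + N * Cf, by positivity⟩, LipschitzWith.of_dist_le_mul fun x y => ?_⟩
  rw [Real.dist_eq]
  have e1 : f x * g x - f y * g y = f x * (g x - g y) + g y * (f x - f y) := by ring
  rw [e1]
  refine (abs_add_le _ _).trans ?_
  rw [abs_mul, abs_mul]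
  have h1 := hf.dist_le_mul x y
  have h2 := hg.dist_le_mul x y
  rw [Real.dist_eq] at h1 h2
  calc |f x| * |g x - g y| + |g y| * |f x - f y|
      ≤ M * (Cg * dist x y) + N * (Cf * dist x y) :=
        add_le_add (mul_le_mul (hM x) h2 (abs_nonneg _) hM0)
          (mul_le_mul (hN y) h1 (abs_nonneg _) hN0)
    _ = (M * Cg + N * Cf) * dist x y := by ring

theorem lip_inv_max {f : E3 → ℝ} (hf : LipschitzWith 1 f) {δ : ℝ} (hδ : 0 < δ) :
    (∃ C : ℝ≥0, LipschitzWith C fun x => (max (f x) δ)⁻¹) ∧ ∀ x, |(max (f x) δ)⁻¹| ≤ δ⁻¹ := by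
  have hm : ∀ x, δ ≤ max (f x) δ := fun x => le_max_right _ _
  have hm0 : ∀ x, 0 < max (f x) δ := fun x => hδ.trans_le (hm x)
  refine ⟨⟨⟨(δ * δ)⁻¹, by positivity⟩, LipschitzWith.of_dist_le_mul fun x y => ?_⟩, fun x => ?_⟩
  · rw [Real.dist_eq]
    have e1 : (max (f x) δ)⁻¹ - (max (f y) δ)⁻¹
        = (max (f y) δ - max (f x) δ) * (max (f x) δ * max (f y) δ)⁻¹ := by
      have h1 := (hm0 x).ne'
      have h2 := (hm0 y).ne'
      field_simp
    rw [e1, abs_mul, abs_of_pos (inv_pos.2 (mul_pos (hm0 x) (hm0 y)))]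
    have h1 : |max (f y) δ - max (f x) δ| ≤ dist x y := by
      have := (hf.max_const δ).dist_le_mul y x
      rw [Real.dist_eq, dist_comm y x] at this
      simpa using this
    have h2 : (max (f x) δ * max (f y) δ)⁻¹ ≤ (δ * δ)⁻¹ :=
      inv_anti₀ (by positivity) (mul_le_mul (hm x) (hm y) hδ.le (hm0 x).le)
    calc |max (f y) δ - max (f x) δ| * (max (f x) δ * max (f y) δ)⁻¹
        ≤ dist x y * (δ * δ)⁻¹ :=
          mul_le_mul h1 h2 (inv_nonneg.2 (mul_pos (hm0 x) (hm0 y)).le) dist_nonneg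
      _ = (δ * δ)⁻¹ * dist x y := mul_comm _ _
  · rw [abs_of_pos (inv_pos.2 (hm0 x))]
    exact inv_anti₀ hδ (hm x)

theorem integrable_ld {f η : E3 → ℝ} {v : E3} {Cf Cη : ℝ≥0} (hf : LipschitzWith Cf f)
    (hη : LipschitzWith Cη η) (hc : HasCompactSupport η) :
    Integrable fun x => lineDeriv ℝ f x v * lineDeriv ℝ η x v := by
  have h1 : Measurable fun x => lineDeriv ℝ f x v * lineDeriv ℝ η x v :=
    (measurable_lineDeriv hf.continuous).mul (measurable_lineDeriv hη.continuous)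
  have hcm : MeasurableSet (tsupport η) := (isClosed_tsupport η).measurableSet
  refine Integrable.mono' (g := indicator (tsupport η) fun _ => (Cf * ‖v‖) * (Cη * ‖v‖)) ?_
    h1.aestronglyMeasurable (Eventually.of_forall fun x => ?_)
  · rw [integrable_indicator_iff hcm]
    exact integrableOn_const (IsCompact.measure_lt_top hc).ne
  · by_cases hx : x ∈ tsupport η
    · rw [indicator_of_mem hx, norm_mul]
      exact mul_le_mul (norm_lineDeriv_le_of_lipschitz ℝ hf) (norm_lineDeriv_le_of_lipschitz ℝ hη)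
        (norm_nonneg _) (by positivity)
    · rw [indicator_of_notMem hx]
      have h2 : η =ᶠ[𝓝 x] 0 := notMem_tsupport_iff_eventuallyEq.1 hx
      have h3 : lineDeriv ℝ η x v = 0 := by
        rw [h2.lineDeriv_eq]
        simp [lineDeriv]
      rw [h3]
      simp

theorem hardy_bd {Ω : Set E3} (hΩ : IsOpen Ω) (hne : Ω ≠ univ) {ρ : ℝ} (hρ : 0 < ρ)
    (hext : ExtBall ρ Ω) {φ : E3 → ℝ} (hφ : ContDiff ℝ 1 φ) (hc : HasCompactSupport φ)
    (hs : tsupport φ ⊆ Ω) :
    Integrable (fun x => φ x ^ 2 / dc Ω x ^ 2) ∧ ∀ ε : ℝ, 0 < ε →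
    ∫ x, φ x ^ 2 / dc Ω x ^ 2 ≤ 4 * (1 + ε) * (∫ x, gs φ x)
      + 9 * (1 + ε) ^ 2 / (ε * ρ ^ 2) * ∫ x, φ x ^ 2 := by
  obtain ⟨δ, hδ, hδs⟩ := IsCompact.exists_cthickening_subset_open hc hΩ hs
  have hball : ∀ x ∈ tsupport φ, closedBall x δ ⊆ Ω := fun x hx =>
    (closedBall_subset_cthickening hx δ).trans hδs
  have hcne : (Ωᶜ : Set E3).Nonempty := nonempty_compl.2 hne
  have hδd : ∀ x ∈ tsupport φ, δ ≤ dc Ω x := by
    intro x hx
    refine (le_infDist hcne).2 fun y hy => ?_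
    by_contra hcon
    push Not at hcon
    exact hy (hball x hx (mem_closedBall.2 (by rw [dist_comm]; exact hcon.le)))
  have hz : ∀ x, φ x ≠ 0 → x ∈ tsupport φ := fun x hx => subset_tsupport _ hx
  set m : E3 → ℝ := fun x => max (dc Ω x) δ with hm
  have hmc : Continuous m := (lip_dc Ω).continuous.max continuous_const
  have hm0 : ∀ x, 0 < m x := fun x => hδ.trans_le (le_max_right _ _)
  have hmi : Continuous fun x => (m x)⁻¹ := hmc.inv₀ fun x => (hm0 x).ne'
  have hmd : ∀ x ∈ tsupport φ, m x = dc Ω x := fun x hx => max_eq_left (hδd x hx)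
  set η : E3 → ℝ := fun x => φ x ^ 2 / dc Ω x with hηd
  have hη1 : η = fun x => φ x ^ 2 * (m x)⁻¹ := by
    funext x
    simp only [hηd]
    by_cases hx : φ x = 0
    · simp [hx]
    · rw [hmd x (hz x hx), div_eq_mul_inv]
  have hq1 : (fun x => φ x ^ 2 / dc Ω x ^ 2) = fun x => φ x ^ 2 * ((m x)⁻¹) ^ 2 := by
    funext x
    by_cases hx : φ x = 0
    · simp [hx]
    · rw [hmd x (hz x hx), div_eq_mul_inv, inv_pow]
  have hc2 : HasCompactSupport fun x => φ x ^ 2 := hc.comp_left (g := fun y : ℝ => y ^ 2) (by simp)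
  have hφ2 : ContDiff ℝ 1 fun x => φ x ^ 2 := hφ.pow 2
  have hηcs : HasCompactSupport η := by rw [hη1]; exact hc2.mul_right
  have hη0 : ∀ x, 0 ≤ η x := fun x => by
    rw [hη1]
    have := hm0 x
    positivity
  obtain ⟨C1, hC1⟩ := hφ2.lipschitzWith_of_hasCompactSupport hc2 (by norm_num)
  obtain ⟨M, hM⟩ := hφ2.continuous.bounded_above_of_compact_support hc2
  obtain ⟨⟨C2, hC2⟩, hN⟩ := lip_inv_max (lip_dc Ω) hδ
  obtain ⟨Cη, hCη⟩ : ∃ C : ℝ≥0, LipschitzWith C η := by
    rw [hη1]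
    exact lip_mul hC1 hC2 (fun x => by simpa using hM x) hN
  have hiη : Integrable η := hCη.continuous.integrable_of_hasCompactSupport hηcs
  have hiq : Integrable fun x => φ x ^ 2 / dc Ω x ^ 2 := by
    rw [hq1]
    exact (hφ2.continuous.mul (hmi.pow 2)).integrable_of_hasCompactSupport hc2.mul_right
  have hgc : ∀ i, Continuous fun x => fderiv ℝ φ x (bv i) := fun i =>
    (hφ.continuous_fderiv (by norm_num)).clm_apply continuous_const
  have higs : Integrable (gs φ) := by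
    unfold gs
    refine integrable_finsetSum _ fun i _ => ?_
    refine ((hgc i).pow 2).integrable_of_hasCompactSupport ?_
    refine (hc.fderiv (𝕜 := ℝ)).mono fun x hx h0 => hx ?_
    simp [h0]
  refine ⟨hiq, fun ε hε => ?_⟩
  -- the inequalities of integrals
  have hone : ∀ i, -(1 / ρ) * ∫ x, η x
      ≤ ∫ x, lineDeriv ℝ (dc Ω) x (bv i) * lineDeriv ℝ η x (bv i) := by
    intro i
    refine int_ge (lip_dc Ω) hCη hηcs hδ hη0 fun x hx t ht => ?_
    have hφx : φ x ≠ 0 := by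
      intro h0
      exact hx (by simp [hηd, h0])
    have hxs := hz x hφx
    have key : ∀ s : ℝ, |s| ≤ δ → x + s • bv i ∈ Ω := by
      intro s hs'
      refine hball x hxs (mem_closedBall.2 ?_)
      rw [dist_eq_norm, add_sub_cancel_left, norm_smul, norm_bv, mul_one]
      exact hs'
    have h1 := key t (by rw [abs_of_pos ht.1]; exact ht.2.le)
    have h2 : x - t • bv i ∈ Ω := by
      have := key (-t) (by rw [abs_neg, abs_of_pos ht.1]; exact ht.2.le)
      rwa [neg_smul, ← sub_eq_add_neg] at this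
    have h3 := second_diff hΩ hne hρ hext (hs hxs) (norm_bv i) h1 h2
    rw [mul_one_div]
    exact h3
  have hld : ∀ i, Integrable fun x => lineDeriv ℝ (dc Ω) x (bv i) * lineDeriv ℝ η x (bv i) :=
    fun i => integrable_ld (lip_dc Ω) hCη hηcs
  have hsum : -(3 / ρ) * ∫ x, η x
      ≤ ∫ x, ∑ i, lineDeriv ℝ (dc Ω) x (bv i) * lineDeriv ℝ η x (bv i) := by
    rw [integral_finsetSum _ fun i _ => hld i]
    have := Finset.sum_le_sum fun i (_ : i ∈ Finset.univ) => hone i
    rw [Finset.sum_const, Finset.card_univ, Fintype.card_fin, nsmul_eq_mul] at this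
    refine le_trans (le_of_eq ?_) this
    push_cast
    ring
  have hpt : ∀ᵐ x : E3, ∑ i, lineDeriv ℝ (dc Ω) x (bv i) * lineDeriv ℝ η x (bv i)
      ≤ 2 * gs φ x - 1 / 2 * (φ x ^ 2 / dc Ω x ^ 2) := by
    filter_upwards [(lip_dc Ω).ae_differentiableAt] with x hd
    by_cases hx : x ∈ tsupport φ
    · have hdx : 0 < dc Ω x := hδ.trans_le (hδd x hx)
      have hφd : DifferentiableAt ℝ φ x := hφ.differentiable (by norm_num) x
      have e1 : ∀ i, lineDeriv ℝ (dc Ω) x (bv i) = fderiv ℝ (dc Ω) x (bv i) := fun i =>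
        hd.lineDeriv_eq_fderiv
      have e2 : ∀ i, lineDeriv ℝ η x (bv i) = (2 * φ x * fderiv ℝ φ x (bv i) * dc Ω x
          - φ x ^ 2 * fderiv ℝ (dc Ω) x (bv i)) / dc Ω x ^ 2 := by
        intro i
        have a1 : HasDerivAt (fun t : ℝ => φ (x + t • bv i)) (fderiv ℝ φ x (bv i)) 0 :=
          hφd.hasFDerivAt.hasLineDerivAt (bv i)
        have a2 : HasDerivAt (fun t : ℝ => dc Ω (x + t • bv i)) (fderiv ℝ (dc Ω) x (bv i)) 0 :=
          hd.hasFDerivAt.hasLineDerivAt (bv i)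
        have a3 := (a1.pow 2).div a2 (by simpa using hdx.ne')
        have a4 : HasLineDerivAt ℝ η _ x (bv i) := a3
        rw [a4.lineDeriv]
        simp
      have e3 : ∑ i, lineDeriv ℝ (dc Ω) x (bv i) * lineDeriv ℝ η x (bv i)
          = 2 * (φ x / dc Ω x) * (∑ i, fderiv ℝ φ x (bv i) * fderiv ℝ (dc Ω) x (bv i))
            - (φ x / dc Ω x) ^ 2 * ∑ i, (fderiv ℝ (dc Ω) x (bv i)) ^ 2 := by
        rw [Finset.mul_sum, Finset.mul_sum, ← Finset.sum_sub_distrib]
        refine Finset.sum_congr rfl fun i _ => ?_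
        rw [e1, e2]
        field_simp
      rw [e3]
      have h1 := grad_ge hne (hs hx) hdx hd
      have h2 := grad_cs (lip_dc Ω) x (fun i => fderiv ℝ φ x (bv i))
      have h3 : ∑ i, (fderiv ℝ φ x (bv i)) ^ 2 = gs φ x := rfl
      rw [h3] at h2
      set P := ∑ i, fderiv ℝ φ x (bv i) * fderiv ℝ (dc Ω) x (bv i)
      set N := ∑ i, (fderiv ℝ (dc Ω) x (bv i)) ^ 2
      have e4 : φ x ^ 2 / dc Ω x ^ 2 = (φ x / dc Ω x) ^ 2 := by rw [div_pow]
      rw [e4]
      set a := φ x / dc Ω x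
      nlinarith [sq_nonneg (a - 2 * P), sq_nonneg a, mul_nonneg (sq_nonneg a) (sub_nonneg.2 h1)]
    · have h2 : φ =ᶠ[𝓝 x] 0 := notMem_tsupport_iff_eventuallyEq.1 hx
      have h0 : φ x = 0 := image_eq_zero_of_notMem_tsupport hx
      have h3 : η =ᶠ[𝓝 x] 0 := by
        filter_upwards [h2] with y hy
        simp only [hηd]
        rw [hy]
        simp
      have h4 : ∀ i, lineDeriv ℝ η x (bv i) = 0 := fun i => by
        rw [h3.lineDeriv_eq]
        simp [lineDeriv]
      have h5 : 0 ≤ gs φ x := Finset.sum_nonneg fun i _ => sq_nonneg _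
      simp only [h4, h0]
      simp
      linarith
  have hfin := hsum.trans (integral_mono_ae (integrable_finsetSum _ fun i _ => hld i)
    ((higs.const_mul 2).sub (hiq.const_mul (1 / 2))) hpt)
  simp only [Pi.sub_apply] at hfin
  rw [integral_sub (higs.const_mul 2) (hiq.const_mul (1 / 2)), integral_const_mul,
    integral_const_mul] at hfin
  -- absorb the term of lower order
  have hi2 : Integrable fun x => φ x ^ 2 := hφ2.continuous.integrable_of_hasCompactSupport hc2
  set b : ℝ := ε / (2 * (1 + ε)) with hb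
  have hb0 : 0 < b := by positivity
  have hlow : 3 / ρ * ∫ x, η x ≤ b * (∫ x, φ x ^ 2 / dc Ω x ^ 2)
      + 9 / (4 * b * ρ ^ 2) * ∫ x, φ x ^ 2 := by
    rw [← integral_const_mul, ← integral_const_mul, ← integral_const_mul,
      ← integral_add (hiq.const_mul b) (hi2.const_mul _)]
    refine integral_mono (hiη.const_mul _) ((hiq.const_mul b).add (hi2.const_mul _)) fun x => ?_
    have e5 : φ x ^ 2 / dc Ω x ^ 2 = (φ x / dc Ω x) ^ 2 := by rw [div_pow]
    have e6 : η x = (φ x / dc Ω x) * φ x := by simp only [hηd]; ring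
    simp only [e5, e6]
    set a := φ x / dc Ω x
    have h6 : 0 ≤ b * (a - 3 / (2 * b * ρ) * φ x) ^ 2 := by positivity
    have e7 : b * (a - 3 / (2 * b * ρ) * φ x) ^ 2
        = b * a ^ 2 + 9 / (4 * b * ρ ^ 2) * φ x ^ 2 - 3 / ρ * (a * φ x) := by
      field_simp
      ring
    linarith
  set X := ∫ x, φ x ^ 2 / dc Ω x ^ 2
  set Q := ∫ x, gs φ x
  set Y := ∫ x, φ x ^ 2
  have h7 : (1 / 2 - b) * X ≤ 2 * Q + 9 / (4 * b * ρ ^ 2) * Y := by linarith
  have e8 : 1 / 2 - b = 1 / (2 * (1 + ε)) := by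
    rw [hb]; field_simp; ring
  rw [e8] at h7
  have h8 : X = (2 * (1 + ε)) * (1 / (2 * (1 + ε)) * X) := by field_simp
  rw [h8]
  calc 2 * (1 + ε) * (1 / (2 * (1 + ε)) * X)
      ≤ 2 * (1 + ε) * (2 * Q + 9 / (4 * b * ρ ^ 2) * Y) :=
        mul_le_mul_of_nonneg_left h7 (by positivity)
    _ = _ := by
        rw [hb]
        field_simp
        ring

end R923.BH
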