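import Pool.Agent.R923.BH.H2
import Pool.Agent.H5R2.NL.Cut
import Pool.Agent.TH340.FF.Form5

/-!
Hardy weights: the distance to the boundary and superpositions of the inverse squares of the
distances to points.
-/

set_option autoImplicit false

open MeasureTheory Set Filter Topology Metric
open scoped ENNReal NNReal InnerProductSpace ContDiff

namespace R923.BH

/-- normalised Hardy weights -/
def IsWeight (Ω : Set E3) (w : E3 → ℝ≥0∞) : Prop :=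
  ∃ (θ : ℝ≥0∞) (μ : Measure E3), θ + μ univ ≤ 1 ∧
    ∀ x, w x = θ / ENNReal.ofReal (infDist x Ωᶜ) ^ 2 + ∫⁻ a, 1 / ENNReal.ofReal ‖x - a‖ ^ 2 ∂μ

theorem meas_ker : Measurable (fun p : E3 × E3 => 1 / ENNReal.ofReal ‖p.1 - p.2‖ ^ 2) := by
  simp only [one_div]
  exact ((measurable_fst.sub measurable_snd).norm.ennreal_ofReal.pow_const 2).inv

theorem meas_ker_left (x : E3) : Measurable (fun a : E3 => 1 / ENNReal.ofReal ‖x - a‖ ^ 2) := by
  simp only [one_div]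
  exact ((measurable_const.sub measurable_id).norm.ennreal_ofReal.pow_const 2).inv

theorem meas_int (μ : Measure E3) [IsFiniteMeasure μ] :
    Measurable (fun x : E3 => ∫⁻ a, 1 / ENNReal.ofReal ‖x - a‖ ^ 2 ∂μ) :=
  Measurable.lintegral_prod_right' (f := fun p : E3 × E3 => 1 / ENNReal.ofReal ‖p.1 - p.2‖ ^ 2)
    meas_ker

theorem meas_mul {φ : E3 → ℝ≥0∞} (hφ : Measurable φ) :
    AEMeasurable (Function.uncurry fun x a : E3 => 1 / ENNReal.ofReal ‖x - a‖ ^ 2 * φ x)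
      ((volume : Measure E3).prod (volume : Measure E3)) := by
  have h : Measurable fun p : E3 × E3 => 1 / ENNReal.ofReal ‖p.1 - p.2‖ ^ 2 * φ p.1 :=
    meas_ker.mul (hφ.comp measurable_fst)
  exact h.aemeasurable

theorem swap_ker (μ : Measure E3) [IsFiniteMeasure μ] {φ : E3 → ℝ≥0∞} (hφ : Measurable φ) :
    ∫⁻ x, (∫⁻ a, 1 / ENNReal.ofReal ‖x - a‖ ^ 2 ∂μ) * φ x
      = ∫⁻ a, ∫⁻ x, 1 / ENNReal.ofReal ‖x - a‖ ^ 2 * φ x ∂volume ∂μ := by
  have h : Measurable fun p : E3 × E3 => 1 / ENNReal.ofReal ‖p.1 - p.2‖ ^ 2 * φ p.1 :=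
    meas_ker.mul (hφ.comp measurable_fst)
  have h2 := lintegral_lintegral_swap (μ := (volume : Measure E3)) (ν := μ)
    (f := fun x a : E3 => 1 / ENNReal.ofReal ‖x - a‖ ^ 2 * φ x) h.aemeasurable
  rw [← h2]
  refine lintegral_congr fun x => ?_
  rw [lintegral_mul_const _ (meas_ker_left x)]

theorem IsWeight.measurable {Ω : Set E3} {w : E3 → ℝ≥0∞} (hw : IsWeight Ω w) : Measurable w := by
  obtain ⟨θ, μ, hm, hw⟩ := hw
  have : IsFiniteMeasure μ := ⟨lt_of_le_of_lt (le_add_self.trans hm) ENNReal.one_lt_top⟩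
  have e : w = fun x => θ / ENNReal.ofReal (infDist x Ωᶜ) ^ 2
      + ∫⁻ a, 1 / ENNReal.ofReal ‖x - a‖ ^ 2 ∂μ := funext hw
  rw [e]
  exact (measurable_const.div ((measurable_infDist.ennreal_ofReal).pow_const 2)).add (meas_int μ)

theorem gsq_eq {φ : E3 → ℝ} (hφ : ContDiff ℝ 1 φ) (x : E3) :
    Pool.Agent.H5R2.NL.gsq (fun x => (φ x : ℂ)) x = gs φ x := by
  unfold Pool.Agent.H5R2.NL.gsq gs
  refine Finset.sum_congr rfl fun i _ => ?_
  have h1 : HasFDerivAt (fun x => (φ x : ℂ)) (Complex.ofRealCLM.comp (fderiv ℝ φ x)) x :=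
    Complex.ofRealCLM.hasFDerivAt.comp x (hφ.differentiable (by norm_num) x).hasFDerivAt
  rw [h1.fderiv]
  simp [bv]

theorem point_hardy {φ : E3 → ℝ} (hφ : ContDiff ℝ 1 φ) (hc : HasCompactSupport φ) (a : E3) :
    ∫⁻ x, 1 / ENNReal.ofReal ‖x - a‖ ^ 2 * ENNReal.ofReal (φ x ^ 2)
      ≤ ENNReal.ofReal (4 * ∫ x, gs φ x) := by
  obtain ⟨h1, h2⟩ := Pool.Agent.H5R2.NL.hardy a (fun x => (φ x : ℂ))
    (Complex.ofRealCLM.contDiff.comp hφ) (hc.comp_left (g := fun y : ℝ => (y : ℂ)) (by simp))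
  simp_rw [gsq_eq hφ] at h2
  refine le_trans (le_of_eq ?_) (ENNReal.ofReal_le_ofReal h2)
  rw [ofReal_integral_eq_lintegral_ofReal h1 (Eventually.of_forall fun x => by positivity)]
  refine lintegral_congr_ae ?_
  have h3 : ∀ᵐ x : E3, x ≠ a := by simp [ae_iff, measure_singleton]
  filter_upwards [h3] with x hx
  have hp : 0 < ‖x - a‖ := norm_pos_iff.2 (sub_ne_zero.2 hx)
  rw [ENNReal.ofReal_div_of_pos (by positivity), ENNReal.ofReal_pow hp.le, one_div,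
    div_eq_mul_inv, mul_comm]
  have e1 : ‖(φ x : ℂ)‖ ^ 2 = φ x ^ 2 := by rw [Complex.norm_real, Real.norm_eq_abs, sq_abs]
  rw [e1]

theorem weight_scalar {Ω : Set E3} (hΩ : IsOpen Ω) (hne : Ω ≠ univ) {ρ : ℝ} (hρ : 0 < ρ)
    (hext : ExtBall ρ Ω) {ε : ℝ} (hε : 0 < ε) {w : E3 → ℝ≥0∞} (hw : IsWeight Ω w) {φ : E3 → ℝ}
    (hφ : ContDiff ℝ 1 φ) (hc : HasCompactSupport φ) (hs : tsupport φ ⊆ Ω) :
    ∫⁻ x, w x * ENNReal.ofReal (φ x ^ 2) ≤ ENNReal.ofReal (4 * (1 + ε) * (∫ x, gs φ x)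
      + 9 * (1 + ε) ^ 2 / (ε * ρ ^ 2) * ∫ x, φ x ^ 2) := by
  obtain ⟨θ, μ, hm, hw⟩ := hw
  have : IsFiniteMeasure μ := ⟨lt_of_le_of_lt (le_add_self.trans hm) ENNReal.one_lt_top⟩
  obtain ⟨hi, hh⟩ := hardy_bd hΩ hne hρ hext hφ hc hs
  have hR := hh ε hε
  have hQ : 0 ≤ ∫ x, gs φ x := integral_nonneg fun x => Finset.sum_nonneg fun i _ => sq_nonneg _
  have hY : 0 ≤ ∫ x, φ x ^ 2 := integral_nonneg fun x => sq_nonneg _
  set R := 4 * (1 + ε) * (∫ x, gs φ x) + 9 * (1 + ε) ^ 2 / (ε * ρ ^ 2) * ∫ x, φ x ^ 2 with hRd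
  have h4R : 4 * ∫ x, gs φ x ≤ R := by
    have h1 : 0 ≤ 9 * (1 + ε) ^ 2 / (ε * ρ ^ 2) * ∫ x, φ x ^ 2 := by positivity
    have h2 : 0 ≤ ε * ∫ x, gs φ x := by positivity
    rw [hRd]
    nlinarith
  have hcm : Measurable fun x => ENNReal.ofReal (φ x ^ 2) :=
    (hφ.continuous.measurable.pow_const 2).ennreal_ofReal
  have mA : Measurable fun x => θ / ENNReal.ofReal (infDist x Ωᶜ) ^ 2 * ENNReal.ofReal (φ x ^ 2) :=
    (measurable_const.div ((measurable_infDist.ennreal_ofReal).pow_const 2)).mul hcm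
  have hA : ∫⁻ x, θ / ENNReal.ofReal (infDist x Ωᶜ) ^ 2 * ENNReal.ofReal (φ x ^ 2)
      ≤ θ * ENNReal.ofReal R := by
    have e1 : ∀ x, θ / ENNReal.ofReal (infDist x Ωᶜ) ^ 2 * ENNReal.ofReal (φ x ^ 2)
        = θ * ENNReal.ofReal (φ x ^ 2 / dc Ω x ^ 2) := by
      intro x
      by_cases hx : φ x = 0
      · simp [hx]
      · have hxs : x ∈ Ω := hs (subset_tsupport _ hx)
        have hd : 0 < dc Ω x := by
          have hcl : IsClosed (Ωᶜ : Set E3) := hΩ.isClosed_compl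
          exact (hcl.notMem_iff_infDist_pos (nonempty_compl.2 hne)).1 (fun h => h hxs)
        rw [ENNReal.ofReal_div_of_pos (by positivity), ENNReal.ofReal_pow hd.le, div_eq_mul_inv,
          div_eq_mul_inv, mul_assoc, mul_comm (_)⁻¹]
        rfl
    simp_rw [e1]
    rw [lintegral_const_mul]
    · refine mul_le_mul_right ?_ _
      rw [← ofReal_integral_eq_lintegral_ofReal hi (Eventually.of_forall fun x => by positivity)]
      exact ENNReal.ofReal_le_ofReal hR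
    · exact ((hφ.continuous.measurable.pow_const 2).div
        ((lip_dc Ω).continuous.measurable.pow_const 2)).ennreal_ofReal
  have hB : ∫⁻ x, (∫⁻ a, 1 / ENNReal.ofReal ‖x - a‖ ^ 2 ∂μ) * ENNReal.ofReal (φ x ^ 2)
      ≤ μ univ * ENNReal.ofReal R := by
    rw [swap_ker μ hcm]
    calc ∫⁻ a, ∫⁻ x, 1 / ENNReal.ofReal ‖x - a‖ ^ 2 * ENNReal.ofReal (φ x ^ 2) ∂volume ∂μ
        ≤ ∫⁻ _a, ENNReal.ofReal R ∂μ := lintegral_mono fun a =>
          (point_hardy hφ hc a).trans (ENNReal.ofReal_le_ofReal h4R)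
      _ = μ univ * ENNReal.ofReal R := by rw [lintegral_const, mul_comm]
  calc ∫⁻ x, w x * ENNReal.ofReal (φ x ^ 2)
      = ∫⁻ x, (θ / ENNReal.ofReal (infDist x Ωᶜ) ^ 2 * ENNReal.ofReal (φ x ^ 2)
        + (∫⁻ a, 1 / ENNReal.ofReal ‖x - a‖ ^ 2 ∂μ) * ENNReal.ofReal (φ x ^ 2)) := by
        refine lintegral_congr fun x => ?_
        rw [hw, add_mul]
    _ = _ := lintegral_add_left mA _
    _ ≤ θ * ENNReal.ofReal R + μ univ * ENNReal.ofReal R := add_le_add hA hB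
    _ = (θ + μ univ) * ENNReal.ofReal R := by rw [add_mul]
    _ ≤ 1 * ENNReal.ofReal R := mul_le_mul_left hm _
    _ = ENNReal.ofReal R := one_mul _

open H772R2.NS Pool.Agent.TH340.FF

theorem gs_coord {φ : E3 → E3} (hφ : ContDiff ℝ ∞ φ) (i : Fin 3) (x : E3) :
    gs (fun x => φ x i) x = ∑ j, jac φ x (i, j) ^ 2 := by
  unfold gs
  refine Finset.sum_congr rfl fun j _ => ?_
  rw [jac_eq_coord hφ]
  rfl

theorem int_jac {φ : E3 → E3} (hφ : ContDiff ℝ ∞ φ) (hc : HasCompactSupport φ) (i : Fin 3) :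
    Integrable fun x => ∑ j, jac φ x (i, j) ^ 2 := by
  refine integrable_finsetSum _ fun j _ => ?_
  refine ((cont_jac_coord hφ i j).pow 2).integrable_of_hasCompactSupport ?_
  refine (hasCompactSupport_jac hc).mono fun x hx h0 => hx ?_
  simp [h0]

theorem int_coord {φ : E3 → E3} (hφ : ContDiff ℝ ∞ φ) (hc : HasCompactSupport φ) (i : Fin 3) :
    Integrable fun x => φ x i ^ 2 := by
  refine ((contDiff_coord hφ i).continuous.pow 2).integrable_of_hasCompactSupport ?_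
  refine hc.mono fun x hx h0 => hx ?_
  simp [h0]

theorem coord_ok {Ω : Set E3} {φ : E3 → E3} (hφ : ContDiff ℝ ∞ φ) (hc : HasCompactSupport φ)
    (hs : tsupport φ ⊆ Ω) (i : Fin 3) : ContDiff ℝ 1 (fun x => φ x i) ∧
      HasCompactSupport (fun x => φ x i) ∧ tsupport (fun x => φ x i) ⊆ Ω := by
  refine ⟨(contDiff_coord hφ i).of_le (by exact_mod_cast le_top), hasCompactSupport_coord hc i, ?_⟩
  refine (closure_mono ?_).trans hs
  intro x hx h0
  exact hx (by simp [h0])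

theorem weight_coord {Ω : Set E3} (hΩ : IsOpen Ω) (hne : Ω ≠ univ) {ρ : ℝ} (hρ : 0 < ρ)
    (hext : ExtBall ρ Ω) {ε : ℝ} (hε : 0 < ε) {w : E3 → ℝ≥0∞} (hw : IsWeight Ω w) {φ : E3 → E3}
    (hφ : ContDiff ℝ ∞ φ) (hc : HasCompactSupport φ) (hs : tsupport φ ⊆ Ω) (i : Fin 3) :
    ∫⁻ x, w x * ENNReal.ofReal (φ x i ^ 2)
      ≤ ENNReal.ofReal (4 * (1 + ε) * (∫ x, ∑ j, jac φ x (i, j) ^ 2)
      + 9 * (1 + ε) ^ 2 / (ε * ρ ^ 2) * ∫ x, φ x i ^ 2) := by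
  obtain ⟨h1, h2, h3⟩ := coord_ok hφ hc hs i
  have := weight_scalar hΩ hne hρ hext hε hw h1 h2 h3
  simp_rw [gs_coord hφ] at this
  exact this

theorem weight_vec {Ω : Set E3} (hΩ : IsOpen Ω) (hne : Ω ≠ univ) {ρ : ℝ} (hρ : 0 < ρ)
    (hext : ExtBall ρ Ω) {ε : ℝ} (hε : 0 < ε) {w : E3 → ℝ≥0∞} (hw : IsWeight Ω w) {φ : E3 → E3}
    (hφ : ContDiff ℝ ∞ φ) (hc : HasCompactSupport φ) (hs : tsupport φ ⊆ Ω) :
    ∫⁻ x, w x * ENNReal.ofReal (‖φ x‖ ^ 2)
      ≤ ENNReal.ofReal (4 * (1 + ε) * (∫ x, ∑ i, ∑ j, jac φ x (i, j) ^ 2)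
      + 9 * (1 + ε) ^ 2 / (ε * ρ ^ 2) * ∫ x, ∑ i, φ x i ^ 2) := by
  have hwm := hw.measurable
  have hmi : ∀ i ∈ (Finset.univ : Finset (Fin 3)), Measurable fun x : E3 =>
      w x * ENNReal.ofReal (φ x i ^ 2) := fun i _ =>
    hwm.mul ((contDiff_coord hφ i).continuous.measurable.pow_const 2).ennreal_ofReal
  have e1 : ∫⁻ x, w x * ENNReal.ofReal (‖φ x‖ ^ 2)
      = ∑ i, ∫⁻ x, w x * ENNReal.ofReal (φ x i ^ 2) := by
    rw [← lintegral_finsetSum _ hmi]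
    refine lintegral_congr fun x => ?_
    rw [norm_sq_E3, ENNReal.ofReal_sum_of_nonneg fun i _ => sq_nonneg _, Finset.mul_sum]
  rw [e1]
  refine (Finset.sum_le_sum fun i _ => weight_coord hΩ hne hρ hext hε hw hφ hc hs i).trans ?_
  rw [← ENNReal.ofReal_sum_of_nonneg fun i _ => ?_]
  · refine ENNReal.ofReal_le_ofReal (le_of_eq ?_)
    rw [Finset.sum_add_distrib, ← Finset.mul_sum, ← Finset.mul_sum,
      integral_finsetSum _ fun i _ => int_jac hφ hc i, integral_finsetSum _ fun i _ =>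
      int_coord hφ hc i]
  · have n1 : 0 ≤ ∫ x, ∑ j, jac φ x (i, j) ^ 2 :=
      integral_nonneg fun x => Finset.sum_nonneg fun j _ => sq_nonneg _
    have n2 : 0 ≤ ∫ x, φ x i ^ 2 := integral_nonneg fun x => sq_nonneg _
    positivity

end R923.BH
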