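import Pool.Agent.R923.BH.H3

/-!
Form inequalities from bounds by Hardy weights.
-/

set_option autoImplicit false

open MeasureTheory Set Filter Topology Metric
open scoped ENNReal NNReal InnerProductSpace ContDiff

namespace R923.BH

open H772R2.NS Pool.Agent.TH340.FF

/-- the constant of the lower order term -/
noncomputable def cst (ε ρ : ℝ) : ℝ := 9 * (1 + ε) ^ 2 / (ε * ρ ^ 2)

theorem cst_nonneg {ε ρ : ℝ} (hε : 0 < ε) : 0 ≤ cst ε ρ := by unfold cst; positivity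

theorem int_le_of_lint {α : Type*} [MeasurableSpace α] {μ : Measure α} {f : α → ℝ}
    (hf : Integrable f μ) {R : ℝ} (hR : 0 ≤ R) (h : ∫⁻ x, ENNReal.ofReal (f x) ∂μ ≤ ENNReal.ofReal R) :
    ∫ x, f x ∂μ ≤ R := by
  rw [integral_eq_lintegral_pos_part_sub_lintegral_neg_part hf]
  have h1 : (∫⁻ x, ENNReal.ofReal (f x) ∂μ).toReal ≤ R := by
    rw [← ENNReal.toReal_ofReal hR]
    exact ENNReal.toReal_mono ENNReal.ofReal_ne_top h
  have h2 : 0 ≤ (∫⁻ x, ENNReal.ofReal (-f x) ∂μ).toReal := ENNReal.toReal_nonneg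
  linarith

variable {Ω : Set E3}

/-- properties of a test field used below -/
structure TF (Ω : Set E3) (φ : E3 → E3) (q : L2V Ω × L2M Ω) : Prop where
  test : IsTest Ω φ
  mem : q ∈ graphW Ω
  e1 : q.1 =ᵐ[volume.restrict Ω] φ
  n1 : ‖q.1‖ ^ 2 = ∫ x, ∑ i, φ x i ^ 2
  n2 : ‖q.2‖ ^ 2 = ∫ x, ∑ i, ∑ j, jac φ x (i, j) ^ 2

theorem tf_of {q : L2V Ω × L2M Ω} (hq : q ∈ preW Ω) : ∃ φ, TF Ω φ q := by
  have hqW := preW_le hq
  obtain ⟨φ, h1, h2, h3⟩ := hq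
  exact ⟨φ, h1, hqW, h2, norm_test1 h1 h2, norm_test2 h1 h3⟩

theorem lint_norm {φ : E3 → E3} {q : L2V Ω × L2M Ω} (h : TF Ω φ q) :
    ∫⁻ x, ENNReal.ofReal (‖φ x‖ ^ 2) = ENNReal.ofReal (‖q.1‖ ^ 2) := by
  rw [h.n1, ← ofReal_integral_eq_lintegral_ofReal]
  · refine congrArg _ (integral_congr_ae (Eventually.of_forall fun x => ?_))
    exact norm_sq_E3 _
  · have h2 : Integrable fun x => ∑ i, φ x i ^ 2 :=
      integrable_finsetSum _ fun i _ => int_coord h.test.smooth h.test.compact i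
    refine h2.congr (Eventually.of_forall fun x => ?_)
    exact (norm_sq_E3 _).symm
  · exact Eventually.of_forall fun x => by positivity

theorem lint_jac {φ : E3 → E3} {q : L2V Ω × L2M Ω} (h : TF Ω φ q) :
    ∫⁻ x, ENNReal.ofReal (‖jac φ x‖ ^ 2) = ENNReal.ofReal (‖q.2‖ ^ 2) := by
  rw [h.n2, ← ofReal_integral_eq_lintegral_ofReal]
  · refine congrArg _ (integral_congr_ae (Eventually.of_forall fun x => ?_))
    exact norm_sq_M3 _
  · have h2 : Integrable fun x => ∑ i, ∑ j, jac φ x (i, j) ^ 2 :=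
      integrable_finsetSum _ fun i _ => int_jac h.test.smooth h.test.compact i
    refine h2.congr (Eventually.of_forall fun x => ?_)
    exact (norm_sq_M3 _).symm
  · exact Eventually.of_forall fun x => by positivity

theorem lint_w (hΩ : IsOpen Ω) (hne : Ω ≠ univ) {ρ : ℝ} (hρ : 0 < ρ)
    (hext : ExtBall ρ Ω) {ε : ℝ} (hε : 0 < ε) {w : E3 → ℝ≥0∞} (hw : IsWeight Ω w) {φ : E3 → E3}
    {q : L2V Ω × L2M Ω} (h : TF Ω φ q) :
    ∫⁻ x, w x * ENNReal.ofReal (‖φ x‖ ^ 2)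
      ≤ ENNReal.ofReal (4 * (1 + ε) * ‖q.2‖ ^ 2 + cst ε ρ * ‖q.1‖ ^ 2) := by
  have := weight_vec hΩ hne hρ hext hε hw h.test.smooth h.test.compact h.test.supp
  rw [← h.n1, ← h.n2] at this
  exact this

/-- **Form inequality**, strain. -/
theorem form_strain (hΩ : IsOpen Ω) (hne : Ω ≠ univ) {ρ : ℝ} (hρ : 0 < ρ)
    (hext : ExtBall ρ Ω) {ε : ℝ} (hε : 0 < ε) {κ ν B : ℝ} (hκ : 0 ≤ κ) (hν : 0 < ν) (hB : 0 ≤ B)
    {w : E3 → ℝ≥0∞} (hw : IsWeight Ω w) {G : L2M Ω}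
    (hG : ∀ᵐ x ∂(volume.restrict Ω), ∀ ξ : E3, ENNReal.ofReal (-⟪(G : E3 → M3) x, tens ξ⟫_ℝ)
      ≤ (ENNReal.ofReal (κ * ν / 4) * w x + ENNReal.ofReal B) * ENNReal.ofReal (‖ξ‖ ^ 2))
    {p : L2V Ω × L2M Ω} (hp : p ∈ graphW Ω) :
    -⟪tensL p.1, G⟫_ℝ ≤ κ * ν * (1 + ε) * ‖p.2‖ ^ 2
      + (κ * ν / 4 * cst ε ρ + B) * ‖p.1‖ ^ 2 := by
  have hm : MeasurableSet Ω := hΩ.measurableSet
  have hC := cst_nonneg (ρ := ρ) hε
  have key := graphW_le (fun p => -⟪tensL p.1, G⟫_ℝ - κ * ν * (1 + ε) * ‖p.2‖ ^ 2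
    - (κ * ν / 4 * cst ε ρ + B) * ‖p.1‖ ^ 2) (form_cont hm G _ _) (fun q hq => ?_) hp
  · linarith
  obtain ⟨φ, h⟩ := tf_of hq
  have e1 : -⟪tensL q.1, G⟫_ℝ = ∫ x in Ω, -⟪(G : E3 → M3) x, tens (φ x)⟫_ℝ := by
    rw [L2.inner_def, ← integral_neg]
    refine integral_congr_ae ?_
    filter_upwards [tensL_coe hm h.mem, h.e1] with x a b
    rw [a, b, real_inner_comm]
  have hi : Integrable (fun x => -⟪(G : E3 → M3) x, tens (φ x)⟫_ℝ) (volume.restrict Ω) := by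
    have h2 := (L2.integrable_inner (𝕜 := ℝ) G (tensL q.1)).neg
    refine h2.congr ?_
    filter_upwards [tensL_coe hm h.mem, h.e1] with x a b
    simp only [Pi.neg_apply]
    rw [a, b]
  set Q := ‖q.2‖ ^ 2 with hQ
  set Y := ‖q.1‖ ^ 2 with hY
  have hQ0 : 0 ≤ Q := sq_nonneg _
  have hY0 : 0 ≤ Y := sq_nonneg _
  set R := κ * ν / 4 * (4 * (1 + ε) * Q + cst ε ρ * Y) + B * Y with hR
  have hR0 : 0 ≤ R := by positivity
  have hle : ∫⁻ x in Ω, ENNReal.ofReal (-⟪(G : E3 → M3) x, tens (φ x)⟫_ℝ) ≤ ENNReal.ofReal R := by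
    calc ∫⁻ x in Ω, ENNReal.ofReal (-⟪(G : E3 → M3) x, tens (φ x)⟫_ℝ)
        ≤ ∫⁻ x in Ω, (ENNReal.ofReal (κ * ν / 4) * w x + ENNReal.ofReal B)
            * ENNReal.ofReal (‖φ x‖ ^ 2) := by
          refine lintegral_mono_ae ?_
          filter_upwards [hG] with x hx
          exact hx (φ x)
      _ ≤ ∫⁻ x, (ENNReal.ofReal (κ * ν / 4) * w x + ENNReal.ofReal B)
            * ENNReal.ofReal (‖φ x‖ ^ 2) := setLIntegral_le_lintegral _ _
      _ = ∫⁻ x, (ENNReal.ofReal (κ * ν / 4) * (w x * ENNReal.ofReal (‖φ x‖ ^ 2))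
            + ENNReal.ofReal B * ENNReal.ofReal (‖φ x‖ ^ 2)) := by
          refine lintegral_congr fun x => ?_
          rw [add_mul, mul_assoc]
      _ = ENNReal.ofReal (κ * ν / 4) * (∫⁻ x, w x * ENNReal.ofReal (‖φ x‖ ^ 2))
            + ENNReal.ofReal B * ∫⁻ x, ENNReal.ofReal (‖φ x‖ ^ 2) := by
          have m1 : Measurable fun x => ENNReal.ofReal (‖φ x‖ ^ 2) :=
            (h.test.smooth.continuous.norm.measurable.pow_const 2).ennreal_ofReal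
          have m2 : Measurable fun x => w x * ENNReal.ofReal (‖φ x‖ ^ 2) := hw.measurable.mul m1
          rw [lintegral_add_right _ (m1.const_mul _), lintegral_const_mul _ m2,
            lintegral_const_mul _ m1]
      _ ≤ ENNReal.ofReal (κ * ν / 4) * ENNReal.ofReal (4 * (1 + ε) * Q + cst ε ρ * Y)
            + ENNReal.ofReal B * ENNReal.ofReal Y := by
          rw [lint_norm h]
          gcongr
          exact lint_w hΩ hne hρ hext hε hw h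
      _ = ENNReal.ofReal R := by
          rw [← ENNReal.ofReal_mul (by positivity), ← ENNReal.ofReal_mul hB,
            ← ENNReal.ofReal_add (by positivity) (by positivity)]
  have h3 := int_le_of_lint hi hR0 hle
  rw [← e1] at h3
  linarith

theorem norm_f1_le (φ : E3 → E3) (x : E3) : ‖f1 φ x‖ ≤ ‖φ x‖ * ‖jac φ x‖ := by
  have h0 : 0 ≤ ‖φ x‖ * ‖jac φ x‖ := by positivity
  refine (pow_le_pow_iff_left₀ (norm_nonneg _) h0 two_ne_zero).1 ?_
  rw [mul_pow, norm_sq_E3, norm_sq_E3, norm_sq_M3, Finset.mul_sum]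
  refine Finset.sum_le_sum fun i _ => ?_
  show (∑ j, φ x j * jac φ x (i, j)) ^ 2 ≤ _
  exact Finset.sum_mul_sq_le_sq_mul_sq _ (fun j => φ x j) (fun j => jac φ x (i, j))

theorem enn_young (a b : ℝ≥0∞) : a * b ≤ a ^ 2 / 4 + b ^ 2 := by
  by_cases ha : a = ⊤
  · subst ha
    have h1 : (⊤ : ℝ≥0∞) ^ 2 / 4 = ⊤ := by
      rw [ENNReal.top_pow (by norm_num), ENNReal.top_div_of_ne_top (by norm_num)]
    rw [h1, top_add]
    exact le_top
  by_cases hb : b = ⊤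
  · subst hb
    have h1 : (⊤ : ℝ≥0∞) ^ 2 = ⊤ := ENNReal.top_pow (by norm_num)
    rw [h1, add_top]
    exact le_top
  lift a to ℝ≥0 using ha
  lift b to ℝ≥0 using hb
  have h1 : a * b ≤ a ^ 2 / 4 + b ^ 2 := by
    rw [← NNReal.coe_le_coe]
    push_cast
    nlinarith [sq_nonneg ((a : ℝ) / 2 - b)]
  have h2 : ((a * b : ℝ≥0) : ℝ≥0∞) ≤ ((a ^ 2 / 4 + b ^ 2 : ℝ≥0) : ℝ≥0∞) := by exact_mod_cast h1
  push_cast at h2
  exact h2

end R923.BH
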