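import Pool.Agent.R923.BH.H4

/-!
Form inequality from a bound for the velocity by Hardy weights.
-/

set_option autoImplicit false

open MeasureTheory Set Filter Topology Metric
open scoped ENNReal NNReal InnerProductSpace ContDiff

namespace R923.BH

open H772R2.NS Pool.Agent.TH340.FF

variable {Ω : Set E3}

theorem int_pair (hΩ : MeasurableSet Ω) {a : E3 → E3} (ha : Continuous a)
    (hc : HasCompactSupport a) (U : L2V Ω) : Integrable fun x => ∑ i, ext Ω U x i * a x i := by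
  have hm : MemLp a 2 ((volume : Measure E3).restrict Ω) :=
    (ha.memLp_of_hasCompactSupport hc).restrict Ω
  have e1 : (fun x => ∑ i, ext Ω U x i * a x i)
      = Ω.indicator fun x => ∑ i, (U : E3 → E3) x i * a x i := by
    funext x
    by_cases hx : x ∈ Ω
    · simp [Pool.Agent.TH340.FF.ext, indicator_of_mem hx]
    · simp [Pool.Agent.TH340.FF.ext, indicator_of_notMem hx]
  rw [e1, integrable_indicator_iff hΩ]
  have h2 := L2.integrable_inner (𝕜 := ℝ) (hm.toLp a) U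
  refine Integrable.congr h2 ?_
  filter_upwards [hm.coeFn_toLp] with x hx
  rw [hx, inner_E3]
  exact Finset.sum_congr rfl fun i _ => by ring

theorem int_smooth {r a : E3 → E3} (hr : Continuous r) (ha : Continuous a)
    (hc : HasCompactSupport a) : Integrable fun x => ∑ i, r x i * a x i := by
  have h1 : Continuous fun x => ∑ i, r x i * a x i := by
    refine continuous_finsetSum _ fun i _ => ?_
    exact ((EuclideanSpace.proj (𝕜 := ℝ) i : E3 →L[ℝ] ℝ).continuous.comp hr).mul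
      ((EuclideanSpace.proj (𝕜 := ℝ) i : E3 →L[ℝ] ℝ).continuous.comp ha)
  refine h1.integrable_of_hasCompactSupport (hc.mono fun x hx h0 => hx ?_)
  simp [h0]

/-- the pointwise inequality -/
theorem pt_ineq {c B η : ℝ} (hc : 0 ≤ c) (hB : 0 ≤ B) (hη : 0 < η) (w : ℝ≥0∞) {P J : ℝ}
    (hP : 0 ≤ P) (hJ : 0 ≤ J) :
    (ENNReal.ofReal c * w ^ (1 / 2 : ℝ) + ENNReal.ofReal B) * ENNReal.ofReal (P * J)
      ≤ ENNReal.ofReal (c / 4) * (w * ENNReal.ofReal (P ^ 2)) + ENNReal.ofReal (c + η) *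
        ENNReal.ofReal (J ^ 2) + ENNReal.ofReal (B ^ 2 / (4 * η)) * ENNReal.ofReal (P ^ 2) := by
  have h1 : w ^ (1 / 2 : ℝ) * ENNReal.ofReal (P * J)
      ≤ w * ENNReal.ofReal (P ^ 2) / 4 + ENNReal.ofReal (J ^ 2) := by
    have := enn_young (w ^ (1 / 2 : ℝ) * ENNReal.ofReal P) (ENNReal.ofReal J)
    rw [mul_pow, ← ENNReal.rpow_natCast, ← ENNReal.rpow_mul] at this
    norm_num at this
    rw [ENNReal.ofReal_mul hP, ENNReal.ofReal_pow hP, ENNReal.ofReal_pow hJ, ← mul_assoc]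
    exact this
  have h2 : ENNReal.ofReal B * ENNReal.ofReal (P * J) ≤ ENNReal.ofReal η * ENNReal.ofReal (J ^ 2)
      + ENNReal.ofReal (B ^ 2 / (4 * η)) * ENNReal.ofReal (P ^ 2) := by
    rw [← ENNReal.ofReal_mul hB, ← ENNReal.ofReal_mul hη.le, ← ENNReal.ofReal_mul (by positivity),
      ← ENNReal.ofReal_add (by positivity) (by positivity)]
    refine ENNReal.ofReal_le_ofReal ?_
    have h3 : 0 ≤ η * (J - B / (2 * η) * P) ^ 2 := by positivity
    have e1 : η * (J - B / (2 * η) * P) ^ 2 = η * J ^ 2 + B ^ 2 / (4 * η) * P ^ 2 - B * (P * J) := by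
      field_simp
      ring
    linarith
  have e4 : ENNReal.ofReal (c / 4) = ENNReal.ofReal c / 4 := by
    rw [ENNReal.ofReal_div_of_pos (by norm_num)]
    norm_num
  calc (ENNReal.ofReal c * w ^ (1 / 2 : ℝ) + ENNReal.ofReal B) * ENNReal.ofReal (P * J)
      = ENNReal.ofReal c * (w ^ (1 / 2 : ℝ) * ENNReal.ofReal (P * J))
        + ENNReal.ofReal B * ENNReal.ofReal (P * J) := by rw [add_mul, mul_assoc]
    _ ≤ ENNReal.ofReal c * (w * ENNReal.ofReal (P ^ 2) / 4 + ENNReal.ofReal (J ^ 2))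
        + (ENNReal.ofReal η * ENNReal.ofReal (J ^ 2)
          + ENNReal.ofReal (B ^ 2 / (4 * η)) * ENNReal.ofReal (P ^ 2)) := by gcongr
    _ = _ := by
        generalize ENNReal.ofReal (B ^ 2 / (4 * η)) = X
        rw [e4, ENNReal.ofReal_add hc hη.le]
        simp only [div_eq_mul_inv]
        ring

/-- **Form inequality**, velocity. -/
theorem form_speed (hΩ : IsOpen Ω) (hne : Ω ≠ univ) {ρ : ℝ} (hρ : 0 < ρ)
    (hext : ExtBall ρ Ω) {ε : ℝ} (hε : 0 < ε) {κ ν B B' η : ℝ} (hκ : 0 ≤ κ) (hν : 0 < ν)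
    (hB : 0 ≤ B) (hη : 0 < η)
    {w : E3 → ℝ≥0∞} (hw : IsWeight Ω w) {U : L2V Ω} {G : L2M Ω} (hU : (U, G) ∈ graphW Ω)
    {r : E3 → E3} (hr : ContDiff ℝ ∞ r)
    (hrs : ∀ x ∈ Ω, ∀ ξ : E3, -⟪jac r x, tens ξ⟫_ℝ ≤ B' * ‖ξ‖ ^ 2)
    (hG : ∀ᵐ x ∂(volume.restrict Ω), ENNReal.ofReal ‖(U : E3 → E3) x - r x‖
      ≤ ENNReal.ofReal (κ * ν / 2) * w x ^ (1 / 2 : ℝ) + ENNReal.ofReal B)
    {p : L2V Ω × L2M Ω} (hp : p ∈ graphW Ω) :
    -⟪tensL p.1, G⟫_ℝ ≤ (κ * ν * (1 + ε / 2) + η) * ‖p.2‖ ^ 2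
      + (κ * ν / 8 * cst ε ρ + B ^ 2 / (4 * η) + B') * ‖p.1‖ ^ 2 := by
  have hm : MeasurableSet Ω := hΩ.measurableSet
  have hC := cst_nonneg (ρ := ρ) hε
  have key := graphW_le (fun p => -⟪tensL p.1, G⟫_ℝ - (κ * ν * (1 + ε / 2) + η) * ‖p.2‖ ^ 2
    - (κ * ν / 8 * cst ε ρ + B ^ 2 / (4 * η) + B') * ‖p.1‖ ^ 2) (form_cont hm G _ _)
    (fun q hq => ?_) hp
  · linarith
  obtain ⟨φ, h⟩ := tf_of hq
  have hφ0 : ∀ x ∉ Ω, φ x = 0 := fun x hx =>
    image_eq_zero_of_notMem_tsupport fun hc => hx (h.test.supp hc)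
  have hf1c := f1_cont h.test.smooth
  have hf1s := f1_comp h.test.compact
  have t1 := int_f1 hm h.test h.mem h.e1 hU
  have t2 := smooth_test h.test hr
  have i1 := int_pair hm hf1c hf1s U
  have i2 := int_smooth hr.continuous hf1c hf1s
  have e1 : -⟪tensL q.1, G⟫_ℝ = (∫ x, ((∑ i, Pool.Agent.TH340.FF.ext Ω U x i * f1 φ x i) - ∑ i, r x i * f1 φ x i))
      - ∫ x, ∑ i, ∑ j, φ x i * φ x j * jac r x (i, j) := by
    rw [integral_sub i1 i2, t1, t2]
    ring
  set Q := ‖q.2‖ ^ 2 with hQ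
  set Y := ‖q.1‖ ^ 2 with hY
  have hQ0 : 0 ≤ Q := sq_nonneg _
  have hY0 : 0 ≤ Y := sq_nonneg _
  -- the regular part
  have hreg : -∫ x, ∑ i, ∑ j, φ x i * φ x j * jac r x (i, j) ≤ B' * Y := by
    rw [hY, h.n1, ← integral_neg, ← integral_const_mul]
    have i3 : Integrable fun x => ∑ i, φ x i ^ 2 :=
      integrable_finsetSum _ fun i _ => int_coord h.test.smooth h.test.compact i
    have i4 : Integrable fun x => ∑ i, ∑ j, φ x i * φ x j * jac r x (i, j) := by
      refine integrable_finsetSum _ fun i _ => integrable_finsetSum _ fun j _ => ?_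
      refine Continuous.integrable_of_hasCompactSupport (((contDiff_coord h.test.smooth
        i).continuous.mul (contDiff_coord h.test.smooth j).continuous).mul
        (cont_jac_coord hr i j)) ?_
      refine h.test.compact.mono fun x hx h0 => hx ?_
      simp [h0]
    refine integral_mono i4.neg (i3.const_mul _) fun x => ?_
    simp only
    by_cases hx : x ∈ Ω
    · have h4 := hrs x hx (φ x)
      rw [inner_M3, norm_sq_E3] at h4
      refine le_trans (le_of_eq ?_) h4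
      congr 1
      refine Finset.sum_congr rfl fun i _ => Finset.sum_congr rfl fun j _ => ?_
      rw [tens_apply]
      ring
    · simp [hφ0 x hx]
  -- the bounded part
  set c := κ * ν / 2 with hc
  have hc0 : 0 ≤ c := by positivity
  set R := c / 4 * (4 * (1 + ε) * Q + cst ε ρ * Y) + (c + η) * Q + B ^ 2 / (4 * η) * Y with hR
  have hR0 : 0 ≤ R := by positivity
  have hle : ∫⁻ x, ENNReal.ofReal ((∑ i, Pool.Agent.TH340.FF.ext Ω U x i * f1 φ x i) - ∑ i, r x i * f1 φ x i)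
      ≤ ENNReal.ofReal R := by
    have m1 : Measurable fun x => ENNReal.ofReal (‖φ x‖ ^ 2) :=
      (h.test.smooth.continuous.norm.measurable.pow_const 2).ennreal_ofReal
    have m2 : Measurable fun x => w x * ENNReal.ofReal (‖φ x‖ ^ 2) := hw.measurable.mul m1
    have m3 : Measurable fun x => ENNReal.ofReal (‖jac φ x‖ ^ 2) :=
      ((continuous_jac h.test.smooth).norm.measurable.pow_const 2).ennreal_ofReal
    have hpt : ∀ᵐ x : E3, ENNReal.ofReal ((∑ i, Pool.Agent.TH340.FF.ext Ω U x i * f1 φ x i)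
        - ∑ i, r x i * f1 φ x i)
        ≤ ENNReal.ofReal (c / 4) * (w x * ENNReal.ofReal (‖φ x‖ ^ 2)) + ENNReal.ofReal (c + η) *
        ENNReal.ofReal (‖jac φ x‖ ^ 2)
        + ENNReal.ofReal (B ^ 2 / (4 * η)) * ENNReal.ofReal (‖φ x‖ ^ 2) := by
      filter_upwards [(ae_restrict_iff' hm).1 hG] with x hx
      by_cases hxΩ : x ∈ Ω
      · have e2 : (∑ i, Pool.Agent.TH340.FF.ext Ω U x i * f1 φ x i) - ∑ i, r x i * f1 φ x i
            = ⟪(U : E3 → E3) x - r x, f1 φ x⟫_ℝ := by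
          rw [inner_E3, ← Finset.sum_sub_distrib]
          refine Finset.sum_congr rfl fun i _ => ?_
          simp only [Pool.Agent.TH340.FF.ext, indicator_of_mem hxΩ, PiLp.sub_apply]
          ring
        rw [e2]
        calc ENNReal.ofReal ⟪(U : E3 → E3) x - r x, f1 φ x⟫_ℝ
            ≤ ENNReal.ofReal (‖(U : E3 → E3) x - r x‖ * (‖φ x‖ * ‖jac φ x‖)) :=
              ENNReal.ofReal_le_ofReal ((real_inner_le_norm _ _).trans
                (mul_le_mul_of_nonneg_left (norm_f1_le φ x) (norm_nonneg _)))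
          _ = ENNReal.ofReal ‖(U : E3 → E3) x - r x‖ * ENNReal.ofReal (‖φ x‖ * ‖jac φ x‖) :=
              ENNReal.ofReal_mul (norm_nonneg _)
          _ ≤ (ENNReal.ofReal c * w x ^ (1 / 2 : ℝ) + ENNReal.ofReal B)
              * ENNReal.ofReal (‖φ x‖ * ‖jac φ x‖) := mul_le_mul_left (hx hxΩ) _
          _ ≤ _ := pt_ineq hc0 hB hη (w x) (norm_nonneg _) (norm_nonneg _)
      · have e2 : f1 φ x = 0 := by
          have h5 := norm_f1_le φ x
          rw [hφ0 x hxΩ, norm_zero, zero_mul] at h5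
          exact norm_le_zero_iff.1 h5
        rw [e2]
        simp
    refine (lintegral_mono_ae hpt).trans ?_
    rw [lintegral_add_right _ (m1.const_mul _), lintegral_add_right _ (m3.const_mul _),
      lintegral_const_mul _ m2, lintegral_const_mul _ m3, lintegral_const_mul _ m1,
      lint_norm h, lint_jac h]
    calc ENNReal.ofReal (c / 4) * (∫⁻ x, w x * ENNReal.ofReal (‖φ x‖ ^ 2))
          + ENNReal.ofReal (c + η) * ENNReal.ofReal Q
          + ENNReal.ofReal (B ^ 2 / (4 * η)) * ENNReal.ofReal Y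
        ≤ ENNReal.ofReal (c / 4) * ENNReal.ofReal (4 * (1 + ε) * Q + cst ε ρ * Y)
          + ENNReal.ofReal (c + η) * ENNReal.ofReal Q
          + ENNReal.ofReal (B ^ 2 / (4 * η)) * ENNReal.ofReal Y := by
          gcongr
          exact lint_w hΩ hne hρ hext hε hw h
      _ = ENNReal.ofReal R := by
          rw [← ENNReal.ofReal_mul (by positivity), ← ENNReal.ofReal_mul (by positivity),
            ← ENNReal.ofReal_mul (by positivity), ← ENNReal.ofReal_add (by positivity)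
            (by positivity), ← ENNReal.ofReal_add (by positivity) (by positivity)]
  have h3 := int_le_of_lint (i1.sub i2) hR0 hle
  simp only [Pi.sub_apply] at h3
  have e5 : R = (κ * ν * (1 + ε / 2) + η) * Q + (κ * ν / 8 * cst ε ρ + B ^ 2 / (4 * η)) * Y := by
    rw [hR, hc]; ring
  rw [e5] at h3
  rw [e1]
  linarith

end R923.BH
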