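import Pool.Agent.W795.ES.PubDef

/-!
Public definitions: the exterior ball condition, Hardy weights, and bounds of the velocity and of
the strain by Hardy weights.
-/

set_option autoImplicit false

open MeasureTheory Set
open scoped InnerProductSpace ENNReal ContDiff

namespace Pool.Agent.R923.BH

open H772R2.NS.Pub
open Pool.Agent.W795.ES (outer)

/-- The exterior ball condition: for each point `y` of the boundary of `Ω` there is a ball of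
radius `ρ` with `y` in its boundary which does not meet `Ω`. -/
def ExteriorBalls (ρ : ℝ) (Ω : Set R3) : Prop :=
  ∀ y ∈ frontier Ω, ∃ z : R3, ‖z - y‖ = ρ ∧ Metric.ball z ρ ⊆ Ωᶜ

/-- Hardy weights: `w(x) = θ / d(x)² + ∫ dμ(a) / |x - a|²`, where `d` is the distance to the
complement of `Ω`, `μ` is a measure on `ℝ³`, and `θ + μ(ℝ³) ≤ 1`. -/
def HardyWeight (Ω : Set R3) (w : R3 → ℝ≥0∞) : Prop :=
  ∃ (θ : ℝ≥0∞) (μ : Measure R3), θ + μ univ ≤ 1 ∧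
    ∀ x, w x = θ / ENNReal.ofReal (Metric.infDist x Ωᶜ) ^ 2
      + ∫⁻ a, 1 / ENNReal.ofReal ‖x - a‖ ^ 2 ∂μ

/-- Slow compression, where `G = ∇v`: `-ξ·(∇v)ξ ≤ ((κ ν / 4) w(x) + β) |ξ|²` for almost all
`x ∈ Ω` and all `ξ`, for some Hardy weight `w`. -/
def SlowStrain {Ω : Set R3} (κ ν β : ℝ) (G : L2 Ω Mat) : Prop :=
  ∃ w : R3 → ℝ≥0∞, HardyWeight Ω w ∧ ∀ᵐ x ∂(volume.restrict Ω), ∀ ξ : R3,
    ENNReal.ofReal (-⟪G.fn x, outer ξ⟫_ℝ)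
      ≤ (ENNReal.ofReal (κ * ν / 4) * w x + ENNReal.ofReal β) * ENNReal.ofReal (‖ξ‖ ^ 2)

/-- Slow motion relative to a smooth flow with slow compression: `|v - r| ≤ (κ ν / 2) √w + B`
almost everywhere in `Ω`, for some Hardy weight `w` and some smooth field `r` on `ℝ³` with
`-ξ·(∇r)ξ ≤ B' |ξ|²` in `Ω`, where `B' + B² / (4 (1 - κ) ν) ≤ β`. -/
def SlowSpeed {Ω : Set R3} (κ ν β : ℝ) (v : L2 Ω R3) : Prop :=
  ∃ (w : R3 → ℝ≥0∞) (r : R3 → R3) (B B' : ℝ), HardyWeight Ω w ∧ ContDiff ℝ ∞ r ∧ 0 ≤ B ∧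
    0 ≤ B' ∧ B' + B ^ 2 / (4 * (1 - κ) * ν) ≤ β ∧
    (∀ x ∈ Ω, ∀ ξ : R3, -⟪jac r x, outer ξ⟫_ℝ ≤ B' * ‖ξ‖ ^ 2) ∧
    ∀ᵐ x ∂(volume.restrict Ω), ENNReal.ofReal ‖v.fn x - r x‖
      ≤ ENNReal.ofReal (κ * ν / 2) * w x ^ (1 / 2 : ℝ) + ENNReal.ofReal B

end Pool.Agent.R923.BH
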