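import Pool.Agent.R923.BH.H5
import Pool.Agent.R923.BH.PubDef
import Pool.Agent.TH340.FF.LH2

/-!
Application to Leray-Hopf solutions in bounded domains.
-/

set_option autoImplicit false

open MeasureTheory Set Filter Topology
open scoped InnerProductSpace ENNReal ContDiff

namespace Pool.Agent.R923.BH

open H772R2.NS.Pub Pool.Agent.W795.TQ
open Pool.Agent.W795.ES (stretch outer)
open Pool.Agent.TH340.FF (stretch_tens grad_bdd grad_form grad_eq)

theorem outer_eq (v : H772R2.NS.E3) : (outer v : H772R2.NS.M3) = H772R2.NS.tens v := by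
  refine PiLp.ext fun r => ?_
  show ⟪(e r.1 : H772R2.NS.E3), (v : H772R2.NS.E3)⟫_ℝ * ⟪(e r.2 : H772R2.NS.E3), v⟫_ℝ = _
  rw [inner_e, inner_e]
  rfl

theorem ne_univ {Ω : Set H772R2.NS.E3} (hb : Bornology.IsBounded Ω) : Ω ≠ univ := by
  intro h
  rw [h] at hb
  exact NormedSpace.unbounded_univ ℝ H772R2.NS.E3 hb

/-- the form inequality, public form -/
theorem pub_form {Ω : Set R3} (hΩ : IsOpen Ω) (hb : Bornology.IsBounded Ω) {ρ : ℝ} (hρ : 0 < ρ)
    (hext : ExteriorBalls ρ Ω) {κ ν lam δ : ℝ} (hκ : 0 ≤ κ) (hκ1 : κ < 1) (hν : 0 < ν)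
    (hlam : 1 < lam) (hδ : δ = (1 - κ) * (1 - 1 / lam) / 2) {β : ℝ} (hβ : 0 ≤ β)
    {U : L2 Ω R3} {G : L2 Ω Mat} (hU : (U, G) ∈ H1graph Ω)
    (hs : SlowStrain κ ν β G ∨ SlowSpeed κ ν β U) {p : L2 Ω R3 × L2 Ω Mat} (hp : p ∈ H1graph Ω) :
    -stretch G p.1 ≤ (1 - δ) * ν * ‖p.2‖ ^ 2
      + (lam * β + ν / 4 * _root_.R923.BH.cst δ ρ) * ‖p.1‖ ^ 2 := by
  have hlam0 : 0 < lam := by linarith
  have hl1 : 1 / lam < 1 := by rw [div_lt_one hlam0]; exact hlam
  have hδ0 : 0 < δ := by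
    rw [hδ]
    have h1 : 0 < 1 - κ := by linarith
    have h2 : 0 < 1 - 1 / lam := by linarith
    positivity
  have h2δ : 2 * δ ≤ 1 - κ := by
    rw [hδ]
    have h1 : 0 < 1 - κ := by linarith
    have h2 : 0 < 1 / lam := by positivity
    nlinarith
  have hκδ : κ * δ ≤ δ := by nlinarith
  have hC := _root_.R923.BH.cst_nonneg (ρ := ρ) hδ0
  have hm : MeasurableSet (show Set H772R2.NS.E3 from Ω) :=
    IsOpen.measurableSet (α := H772R2.NS.E3) hΩ
  have hne := ne_univ (Ω := (show Set H772R2.NS.E3 from Ω)) hb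
  rw [stretch_tens hm G hp]
  have hn2 : 0 ≤ ‖p.2‖ ^ 2 := sq_nonneg _
  have hn1 : 0 ≤ ‖p.1‖ ^ 2 := sq_nonneg _
  have hκC : κ * ν * _root_.R923.BH.cst δ ρ ≤ ν * _root_.R923.BH.cst δ ρ := by
    have : 0 ≤ ν * _root_.R923.BH.cst δ ρ := by positivity
    nlinarith
  rcases hs with ⟨w, hw, h1⟩ | ⟨w, r, B, B', hw, hr, hB, hB', hle, hrs, h1⟩
  · have h2 := _root_.R923.BH.form_strain (Ω := (show Set H772R2.NS.E3 from Ω)) hΩ hne hρ hext hδ0
      hκ hν hβ (w := w) hw (G := G) (by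
        have h1' : ∀ᵐ x ∂((volume : Measure H772R2.NS.E3).restrict
          (show Set H772R2.NS.E3 from Ω)), ∀ ξ : H772R2.NS.E3,
            ENNReal.ofReal (-⟪(G.fn x : H772R2.NS.M3), (outer ξ : H772R2.NS.M3)⟫_ℝ)
            ≤ (ENNReal.ofReal (κ * ν / 4) * w x + ENNReal.ofReal β)
              * ENNReal.ofReal (‖ξ‖ ^ 2) := h1
        filter_upwards [h1'] with x hx ξ
        rw [← outer_eq]
        exact hx ξ) (mem_pub.mpr hp)
    refine h2.trans ?_
    have e1 : κ * ν * (1 + δ) ≤ (1 - δ) * ν := by nlinarith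
    have e2 : κ * ν / 4 * _root_.R923.BH.cst δ ρ + β
        ≤ lam * β + ν / 4 * _root_.R923.BH.cst δ ρ := by nlinarith
    exact add_le_add (mul_le_mul_of_nonneg_right e1 hn2) (mul_le_mul_of_nonneg_right e2 hn1)
  · have h1κ : 0 < 1 - κ := by linarith
    have hη : 0 < (1 - κ) * ν / lam := by positivity
    have h2 := _root_.R923.BH.form_speed (Ω := (show Set H772R2.NS.E3 from Ω)) hΩ hne hρ hext hδ0
      hκ hν hB (B' := B') hη (w := w) hw (U := U) (G := G) (mem_pub.mpr hU) (r := r) hr (by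
        intro x hx ξ
        have h3 : -⟪(jac r x : H772R2.NS.M3), (outer ξ : H772R2.NS.M3)⟫_ℝ ≤ B' * ‖ξ‖ ^ 2 :=
          hrs x hx ξ
        rw [outer_eq] at h3
        have h5 : -⟪H772R2.NS.jac r x, H772R2.NS.tens ξ⟫_ℝ
            = -⟪(jac r x : H772R2.NS.M3), H772R2.NS.tens ξ⟫_ℝ :=
          congrArg (fun y : H772R2.NS.M3 => -⟪y, H772R2.NS.tens ξ⟫_ℝ) (jac_eq r x).symm
        exact h5.trans_le h3) h1 (mem_pub.mpr hp)
    refine h2.trans ?_
    have e0 : (1 - κ) * ν / lam = ((1 - κ) - 2 * δ) * ν := by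
      rw [hδ]; field_simp; ring
    have e1 : κ * ν * (1 + δ / 2) + (1 - κ) * ν / lam ≤ (1 - δ) * ν := by
      rw [e0]; nlinarith
    have e3 : B ^ 2 / (4 * ((1 - κ) * ν / lam)) = lam * (B ^ 2 / (4 * (1 - κ) * ν)) := by
      field_simp
    have e2 : κ * ν / 8 * _root_.R923.BH.cst δ ρ + B ^ 2 / (4 * ((1 - κ) * ν / lam)) + B'
        ≤ lam * β + ν / 4 * _root_.R923.BH.cst δ ρ := by
      rw [e3]
      have h4 : 0 ≤ ν * _root_.R923.BH.cst δ ρ := by positivity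
      have h5 : lam * (B' + B ^ 2 / (4 * (1 - κ) * ν)) ≤ lam * β :=
        mul_le_mul_of_nonneg_left hle hlam0.le
      nlinarith
    exact add_le_add (mul_le_mul_of_nonneg_right e1 hn2) (mul_le_mul_of_nonneg_right e2 hn1)

theorem main (Ω : Set R3) (hΩ : IsOpen Ω) (hb : Bornology.IsBounded Ω) (ρ : ℝ) (hρ : 0 < ρ)
    (hext : ExteriorBalls ρ Ω) (ν T : ℝ) (hν : 0 < ν)
    (hT : 0 < T) (F F' : ℝ → L2 Ω Mat) (hF : IsH1 T F F')
    (u : ℝ → L2 Ω R3) (G : ℝ → L2 Ω Mat) (L : IsLerayHopf Ω ν T F u G)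
    (z0 : L2 Ω Mat) (h0 : (u 0, z0) ∈ H1graph Ω)
    (hg : ∃ g : L2 Ω R3, ∀ φ, IsTest Ω φ → rhs ν (u 0) z0 (F 0) φ = ∫ x in Ω, ⟪g.fn x, φ x⟫_ℝ) :
    (∃ u' G1 G', IsStrong Ω ν T F u u' G1 G') ∨
    ∃ τ ∈ Ioc 0 T, (∀ t ∈ Ioo 0 τ, ∃ u' G1 G', IsStrong Ω ν t F u u' G1 G') ∧
      ∀ κ : ℝ, 0 ≤ κ → κ < 1 → ∀ s ∈ Ico 0 τ, ∀ lam : ℝ, 1 < lam → ∃ M : ℝ, ∀ β : ℝ → ℝ,
        (∀ t, 0 ≤ β t) → (∀ t ∈ Ioo s τ, IntervalIntegrable β volume s t) →
        (∀ᵐ t ∂(volume.restrict (Ioo s τ)),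
          SlowStrain κ ν (β t) (G t) ∨ SlowSpeed κ ν (β t) (u t)) →
        ∀ t0 < τ, ∃ t ∈ Ioo t0 τ, s < t ∧
          3 / 4 * Real.log (1 / (τ - t)) - M ≤ lam * ∫ r in s..t, β r := by
  rcases Pool.Agent.Results.MP_fd8964_an.EnergyStability.result Ω hΩ hb ν T hν hT F F' hF u G L
    z0 h0 hg with h1 | ⟨τ, hτ, h1, h2⟩
  · exact Or.inl h1
  refine Or.inr ⟨τ, hτ, h1, fun κ hκ hκ1 s hs lam hlam => ?_⟩
  have hlam0 : 0 < lam := by linarith
  obtain ⟨δ, hδ⟩ : ∃ δ : ℝ, δ = (1 - κ) * (1 - 1 / lam) / 2 := ⟨_, rfl⟩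
  have hl1 : 1 / lam < 1 := by rw [div_lt_one hlam0]; exact hlam
  have hδ0 : 0 < δ := by
    rw [hδ]
    have h1 : 0 < 1 - κ := by linarith
    have h2 : 0 < 1 - 1 / lam := by linarith
    positivity
  have hδ1 : δ < 1 := by
    rw [hδ]
    have h3 : 0 < 1 / lam := by positivity
    nlinarith
  set C' := ν / 4 * _root_.R923.BH.cst δ ρ with hC'
  have hC'0 : 0 ≤ C' := by
    have := _root_.R923.BH.cst_nonneg (ρ := ρ) hδ0
    positivity
  have hm : MeasurableSet (show Set H772R2.NS.E3 from Ω) :=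
    IsOpen.measurableSet (α := H772R2.NS.E3) hΩ
  have hgT : ∀ᵐ t ∂(volume.restrict (Ioc 0 τ)), (u t, G t) ∈ H1graph Ω := by
    have := L.grad
    exact ae_mono (Measure.restrict_mono (Ioc_subset_Ioc_right hτ.2) le_rfl) this
  -- the bound before the time `s`
  obtain ⟨Cs, hCs0, hCs⟩ : ∃ C : ℝ, 0 ≤ C ∧ ∀ᵐ t ∂(volume.restrict (Ioc 0 s)), ∀ p ∈ H1graph Ω,
      -stretch (G t) p.1 ≤ (1 - δ) * ν * ‖p.2‖ ^ 2 + C * ‖p.1‖ ^ 2 := by
    rcases eq_or_lt_of_le hs.1 with h3 | h3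
    · refine ⟨0, le_rfl, ?_⟩
      rw [← h3]
      simp
    · obtain ⟨u', G1, G', hst⟩ := h1 s ⟨h3, hs.2⟩
      obtain ⟨M₁, hM₁⟩ := grad_bdd hΩ hst
        (ae_mono (Measure.restrict_mono (Ioc_subset_Ioc_right hs.2.le) le_rfl) hgT)
      obtain ⟨C, hC, hC2⟩ := grad_form (Ω := (show Set H772R2.NS.E3 from Ω)) hm (M := M₁)
        (ε := (1 - δ) * ν) (by
          have : 0 < 1 - δ := by linarith
          positivity)
      refine ⟨C, hC, ?_⟩
      filter_upwards [hM₁] with t ht p hp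
      rw [stretch_tens hm (G t) hp]
      exact hC2 (G t) ht p (mem_pub.mpr hp)
  obtain ⟨Mc, hMc⟩ := h2 0 (fun j => j.elim0) (fun j => j.elim0) δ hδ0 s hs
  refine ⟨Mc + C' * τ, fun β hβ0 hβi hyp t0 ht0 => ?_⟩
  set Λ : ℝ → ℝ := fun t => if t ≤ s then Cs else lam * β t + C' with hΛ
  have hΛ0 : ∀ t, 0 ≤ Λ t := fun t => by
    simp only [hΛ]
    split_ifs
    · exact hCs0
    · have := hβ0 t
      positivity
  have hΛs : ∀ t, s ≤ t → EqOn (fun t => lam * β t + C') Λ (Ioc s t) := fun t _ r hr => by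
    simp only [hΛ]
    rw [if_neg (not_le.2 hr.1)]
  have hΛi : ∀ t ∈ Ioo 0 τ, IntervalIntegrable Λ volume 0 t := by
    intro t ht
    have i1 : ∀ a b, a ≤ b → b ≤ s → IntervalIntegrable Λ volume a b := fun a b hab hb => by
      have : IntervalIntegrable (fun _ : ℝ => Cs) volume a b := intervalIntegrable_const
      refine this.congr fun r hr => ?_
      rw [uIoc_of_le hab] at hr
      simp only [hΛ]
      rw [if_pos (hr.2.trans hb)]
    rcases le_or_gt t s with h3 | h3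
    · exact i1 0 t ht.1.le h3
    · refine (i1 0 s hs.1 le_rfl).trans ?_
      refine (((hβi t ⟨h3, ht.2⟩).const_mul lam).add
        (intervalIntegrable_const (c := C'))).congr fun r hr => ?_
      rw [uIoc_of_le h3.le] at hr
      exact hΛs t h3.le hr
  obtain ⟨t, ht, hst, hlog⟩ := hMc Λ hΛ0 hΛi (by
    have a1 : ∀ᵐ t ∂(volume : Measure ℝ), t ∈ Ioc 0 s → ∀ p ∈ H1graph Ω,
        -stretch (G t) p.1 ≤ (1 - δ) * ν * ‖p.2‖ ^ 2 + Cs * ‖p.1‖ ^ 2 :=
      (ae_restrict_iff' measurableSet_Ioc).1 hCs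
    have a2 : ∀ᵐ t ∂(volume : Measure ℝ), t ∈ Ioo s τ →
        SlowStrain κ ν (β t) (G t) ∨ SlowSpeed κ ν (β t) (u t) :=
      (ae_restrict_iff' measurableSet_Ioo).1 hyp
    have a3 : ∀ᵐ t ∂(volume : Measure ℝ), t ≠ τ := by simp [ae_iff, measure_singleton]
    have a4 : ∀ᵐ t ∂(volume : Measure ℝ), t ∈ Ioc 0 τ → (u t, G t) ∈ H1graph Ω :=
      (ae_restrict_iff' measurableSet_Ioc).1 hgT
    rw [ae_restrict_iff' measurableSet_Ioc]
    filter_upwards [a1, a2, a3, a4] with t b1 b2 b3 b4 ht p hp _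
    by_cases hts : t ≤ s
    · have e1 : Λ t = Cs := by simp only [hΛ]; rw [if_pos hts]
      rw [e1]
      exact b1 ⟨ht.1, hts⟩ p hp
    · have e1 : Λ t = lam * β t + C' := by simp only [hΛ]; rw [if_neg hts]
      rw [e1]
      exact pub_form hΩ hb hρ hext hκ hκ1 hν hlam hδ (hβ0 t) (b4 ht)
        (b2 ⟨not_le.1 hts, lt_of_le_of_ne ht.2 b3⟩) hp) t0 ht0
  refine ⟨t, ht, hst, ?_⟩
  have e2 : ∫ r in s..t, Λ r = (lam * ∫ r in s..t, β r) + C' * (t - s) := by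
    have e3 : ∫ r in s..t, Λ r = ∫ r in s..t, (lam * β r + C') := by
      refine intervalIntegral.integral_congr_ae ?_
      refine Eventually.of_forall fun r hr => ?_
      rw [uIoc_of_le hst.le] at hr
      exact (hΛs t hst.le hr).symm
    rw [e3, intervalIntegral.integral_add ((hβi t ⟨hst, ht.2⟩).const_mul lam)
      intervalIntegrable_const, intervalIntegral.integral_const_mul,
      intervalIntegral.integral_const, smul_eq_mul, mul_comm (t - s)]
  rw [e2] at hlog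
  have h5 : C' * (t - s) ≤ C' * τ := by
    refine mul_le_mul_of_nonneg_left ?_ hC'0
    linarith [ht.2, hs.1]
  linarith

theorem explicit {Ω : Set R3} {ν τ κ : ℝ} (hτ : 0 < τ)
    {u : ℝ → L2 Ω R3} {G : ℝ → L2 Ω Mat}
    (H : ∀ s ∈ Ico 0 τ, ∀ lam : ℝ, 1 < lam → ∃ M : ℝ, ∀ β : ℝ → ℝ,
        (∀ t, 0 ≤ β t) → (∀ t ∈ Ioo s τ, IntervalIntegrable β volume s t) →
        (∀ᵐ t ∂(volume.restrict (Ioo s τ)),
          SlowStrain κ ν (β t) (G t) ∨ SlowSpeed κ ν (β t) (u t)) →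
        ∀ t0 < τ, ∃ t ∈ Ioo t0 τ, s < t ∧
          3 / 4 * Real.log (1 / (τ - t)) - M ≤ lam * ∫ r in s..t, β r)
    {b t1 : ℝ} (hb : 0 ≤ b) (hb1 : b < 3 / 4) (ht1 : t1 < τ)
    (hyp : ∀ᵐ t ∂(volume.restrict (Ioo t1 τ)),
      SlowStrain κ ν (b / (τ - t)) (G t) ∨ SlowSpeed κ ν (b / (τ - t)) (u t)) : False := by
  set s := max t1 0 with hs
  have hsτ : s < τ := max_lt ht1 hτ
  have hs0 : 0 ≤ s := le_max_right _ _
  obtain ⟨lam, hlam, hlb⟩ : ∃ lam : ℝ, 1 < lam ∧ lam * b < 3 / 4 := by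
    rcases eq_or_lt_of_le hb with h | h
    · exact ⟨2, by norm_num, by rw [← h]; norm_num⟩
    · refine ⟨(3 / 4 / b + 1) / 2, ?_, ?_⟩
      · have : 1 < 3 / 4 / b := by rw [lt_div_iff₀ h]; linarith
        linarith
      · have : (3 / 4 / b + 1) / 2 * b = (3 / 4 + b) / 2 := by field_simp
        rw [this]
        linarith
  have hlam0 : 0 < lam := by linarith
  obtain ⟨M, hM⟩ := H s ⟨hs0, hsτ⟩ lam hlam
  set γ := lam * b with hγ
  have hγ0 : 0 ≤ γ := by positivity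
  set β : ℝ → ℝ := fun t => b / |τ - t| with hβ
  have hβc : ∀ t ∈ Ioo s τ, ContinuousOn β (uIcc s t) := by
    intro t ht
    rw [uIcc_of_le ht.1.le]
    refine continuousOn_const.div (continuous_const.sub continuous_id).abs.continuousOn
      fun r hr => ?_
    have : 0 < τ - r := by linarith [hr.2, ht.2]
    exact abs_ne_zero.2 this.ne'
  have h1 := hM β (fun t => by simp only [hβ]; positivity)
    (fun t ht => (hβc t ht).intervalIntegrable) (by
      have h2 : ∀ᵐ t ∂(volume.restrict (Ioo s τ)),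
          SlowStrain κ ν (b / (τ - t)) (G t) ∨ SlowSpeed κ ν (b / (τ - t)) (u t) :=
        ae_mono (Measure.restrict_mono (Ioo_subset_Ioo_left (le_max_left _ _)) le_rfl) hyp
      filter_upwards [h2, ae_restrict_mem measurableSet_Ioo] with t ht htI
      have hp : 0 < τ - t := by linarith [htI.2]
      have e1 : β t = b / (τ - t) := by simp only [hβ]; rw [abs_of_pos hp]
      rw [e1]
      exact ht)
  -- the integral of `β`
  have hint : ∀ t ∈ Ioo s τ, lam * ∫ r in s..t, β r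
      = γ * (Real.log (1 / (τ - t)) - Real.log (1 / (τ - s))) := by
    intro t ht
    have hder : ∀ r ∈ uIcc s t, HasDerivAt (fun r => b * Real.log (1 / (τ - r))) (β r) r := by
      intro r hr
      rw [uIcc_of_le ht.1.le] at hr
      have hp : 0 < τ - r := by linarith [hr.2, ht.2]
      have e1 : (fun r => b * Real.log (1 / (τ - r))) = fun r => b * -Real.log (τ - r) := by
        funext r
        rw [one_div, Real.log_inv]
      rw [e1]
      refine (((((hasDerivAt_id r).const_sub τ).log hp.ne').neg).const_mul b).congr_deriv ?_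
      simp only [hβ]
      rw [abs_of_pos hp]
      simp only [id]
      ring
    rw [intervalIntegral.integral_eq_sub_of_hasDerivAt hder (hβc t ht).intervalIntegrable, hγ]
    ring
  -- a time at which the logarithm is large
  set A := (|M| + γ * |Real.log (1 / (τ - s))| + 1) / (3 / 4 - γ) with hA
  have hgp : 0 < 3 / 4 - γ := by linarith
  obtain ⟨t, ht, hst, hle⟩ := h1 (τ - Real.exp (-A)) (by linarith [Real.exp_pos (-A)])
  rw [hint t ⟨hst, ht.2⟩] at hle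
  have hp : 0 < τ - t := by linarith [ht.2]
  have h3 : A < Real.log (1 / (τ - t)) := by
    rw [one_div, Real.log_inv, lt_neg, Real.log_lt_iff_lt_exp hp]
    linarith [ht.1]
  have h4 : (3 / 4 - γ) * A = |M| + γ * |Real.log (1 / (τ - s))| + 1 := by
    rw [hA, mul_comm, div_mul_cancel₀ _ hgp.ne']
  have h5 : (3 / 4 - γ) * A < (3 / 4 - γ) * Real.log (1 / (τ - t)) :=
    mul_lt_mul_of_pos_left h3 hgp
  have h6 := le_abs_self M
  have h7 : -(γ * Real.log (1 / (τ - s))) ≤ γ * |Real.log (1 / (τ - s))| := by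
    rw [← mul_neg]
    exact mul_le_mul_of_nonneg_left (neg_le_abs _) hγ0
  nlinarith

end Pool.Agent.R923.BH
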