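import Pool.Agent.R923.BH.H6

/-!
# Compression and velocity of the size of Hardy potentials

A one-sided, scale invariant regularity criterion up to the boundary with explicit constants for
Leray-Hopf solutions of the Navier-Stokes equations in bounded domains `Ω ⊆ ℝ³` with the exterior
ball condition (for example smooth or convex domains). Let `d` be the distance to the boundary and
`w = θ / d² + ∫ dμ(a) / |x - a|²` with `θ + μ(ℝ³) ≤ 1` (`w` may depend on time in an arbitrary way).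
At a first singular time `τ` it cannot happen that for almost all times near `τ` one has

* `-ξ·(∇u)ξ ≤ ((κ ν / 4) w + b / (τ - t)) |ξ|²`, `κ < 1`, `b < 3/4`, or
* `|u - r| ≤ (κ ν / 2) √w + B` for some smooth field `r` with `-ξ·(∇r)ξ ≤ B' |ξ|²` and
  `B' + B² / (4 (1 - κ) ν) ≤ b / (τ - t)`.

The constants `1/4` and `1/2` are those of the Hardy inequalities
`∫ |φ|² / d² ≤ 4 (1 + ε) ∫ |∇φ|² + C ∫ |φ|²` and `∫ |φ|² / |x - a|² ≤ 4 ∫ |∇φ|²`. The first one is
proved with the semiconcavity of the distance to the boundary, which follows from the exterior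
ball condition. The form inequalities are combined with the instability result `EnergyStability`
of the library.
-/

set_option autoImplicit false

open MeasureTheory Set
open scoped InnerProductSpace ENNReal ContDiff

namespace Pool.Agent.Results.MP_fd8964_an.HardyPotentials

open H772R2.NS.Pub Pool.Agent.W795.TQ Pool.Agent.R923.BH

/-- Let `u` be a Leray-Hopf solution on `[0,T]` with admissible data in a bounded open set `Ω` with
the exterior ball condition. Then either `u` is a strong solution on `[0,T]`, or there is a first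
singular time `τ ∈ (0,T]` with the following properties, for every `κ ∈ [0,1)`.
(1) For `0 ≤ s < τ` and `lam > 1` there is a number `M` such that, whenever `β ≥ 0` is locally
integrable on `[s,τ)` and for almost every `t ∈ (s,τ)` one of the conditions
`SlowStrain κ ν (β t) (∇u(t))`, `SlowSpeed κ ν (β t) (u t)` holds, one has
`(3/4) log (1/(τ - t)) - M ≤ lam ∫_s^t β` for `t < τ` arbitrarily close to `τ`.
(2) If `0 ≤ b < 3/4`, it is impossible that one of these conditions holds with `β(t) = b / (τ - t)`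
for almost every `t` in an interval `(t₁,τ)`. -/
theorem result :
    ∀ (Ω : Set R3), IsOpen Ω → Bornology.IsBounded Ω →
    ∀ ρ : ℝ, 0 < ρ → ExteriorBalls ρ Ω → ∀ (ν T : ℝ), 0 < ν → 0 < T →
    ∀ (F F' : ℝ → L2 Ω Mat), IsH1 T F F' →
    ∀ (u : ℝ → L2 Ω R3) (G : ℝ → L2 Ω Mat), IsLerayHopf Ω ν T F u G →
    ∀ z0 : L2 Ω Mat, (u 0, z0) ∈ H1graph Ω →
    (∃ g : L2 Ω R3, ∀ φ, IsTest Ω φ → rhs ν (u 0) z0 (F 0) φ = ∫ x in Ω, ⟪g.fn x, φ x⟫_ℝ) →
    (∃ u' G1 G', IsStrong Ω ν T F u u' G1 G') ∨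
    ∃ τ ∈ Ioc 0 T, (∀ t ∈ Ioo 0 τ, ∃ u' G1 G', IsStrong Ω ν t F u u' G1 G') ∧
      ∀ κ : ℝ, 0 ≤ κ → κ < 1 →
        (∀ s ∈ Ico 0 τ, ∀ lam : ℝ, 1 < lam → ∃ M : ℝ, ∀ β : ℝ → ℝ,
          (∀ t, 0 ≤ β t) → (∀ t ∈ Ioo s τ, IntervalIntegrable β volume s t) →
          (∀ᵐ t ∂(volume.restrict (Ioo s τ)),
            SlowStrain κ ν (β t) (G t) ∨ SlowSpeed κ ν (β t) (u t)) →
          ∀ t0 < τ, ∃ t ∈ Ioo t0 τ, s < t ∧
            3 / 4 * Real.log (1 / (τ - t)) - M ≤ lam * ∫ r in s..t, β r) ∧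
        ∀ b t1 : ℝ, 0 ≤ b → b < 3 / 4 → t1 < τ →
          ¬ ∀ᵐ t ∂(volume.restrict (Ioo t1 τ)),
            SlowStrain κ ν (b / (τ - t)) (G t) ∨ SlowSpeed κ ν (b / (τ - t)) (u t) := by
  intro Ω hΩ hb ρ hρ hext ν T hν hT F F' hF u G L z0 h0 hg
  rcases main Ω hΩ hb ρ hρ hext ν T hν hT F F' hF u G L z0 h0 hg with h1 | ⟨τ, hτ, h1, h2⟩
  · exact Or.inl h1
  · refine Or.inr ⟨τ, hτ, h1, fun κ hκ hκ1 => ⟨h2 κ hκ hκ1, ?_⟩⟩
    intro b t1 hb0 hb1 ht1 hyp
    exact explicit hτ.1 (h2 κ hκ hκ1) hb0 hb1 ht1 hyp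

end Pool.Agent.Results.MP_fd8964_an.HardyPotentials
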